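import Mathlib

/-!
The smooth low-pass mask `m` : a 1-periodic even smooth function with values in `[0,1]`,
`m x ^ 2 + m (x + 1/2) ^ 2 = 1`, `m = 1` near the integers, and whose zero set is
`{x : cos (2πx) ≤ -3/4} ∪ {x : cos (2πx) = -1/2}`.
-/

open Real Set

namespace Pool.Agent.MP27eeb4

noncomputable section

/-- polynomial with `pol y + pol (-y) = 1`, positive iff `y > -3/4` and `y ≠ -1/2` -/
def pol (y : ℝ) : ℝ := (2 * y + 1) ^ 2 * (4 * y + 3) * (28 * y ^ 2 - 49 * y + 25) / 150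

lemma pol_neg (y : ℝ) : pol (-y) = 1 - pol y := by unfold pol; ring

lemma quad_pos (y : ℝ) : 0 < 28 * y ^ 2 - 49 * y + 25 := by nlinarith [sq_nonneg (y - 7/8)]

lemma pol_pos {y : ℝ} (h1 : -3/4 < y) (h2 : y ≠ -1/2) : 0 < pol y := by
  unfold pol
  have h3 : 0 < (2 * y + 1) ^ 2 := by
    have : 2 * y + 1 ≠ 0 := by
      intro h; apply h2; linarith
    positivity
  have h4 : 0 < 4 * y + 3 := by linarith
  have := quad_pos y
  positivity

lemma pol_nonpos {y : ℝ} (h1 : y ≤ -3/4 ∨ y = -1/2) : pol y ≤ 0 := by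
  unfold pol
  have hq := quad_pos y
  rcases h1 with h | h
  · have h3 : 0 ≤ (2 * y + 1) ^ 2 := sq_nonneg _
    have h4 : 4 * y + 3 ≤ 0 := by linarith
    have : (2 * y + 1) ^ 2 * (4 * y + 3) ≤ 0 := mul_nonpos_of_nonneg_of_nonpos h3 h4
    have := mul_nonpos_of_nonpos_of_nonneg this hq.le
    linarith
  · rw [h]; norm_num

/-- symmetry of the smooth transition -/
lemma st_symm (t : ℝ) : smoothTransition (1 - t) = 1 - smoothTransition t := by
  unfold smoothTransition
  have h := smoothTransition.pos_denom t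
  have h' : expNegInvGlue (1 - t) + expNegInvGlue (1 - (1 - t)) ≠ 0 := by
    rw [sub_sub_cancel, add_comm]; exact h.ne'
  rw [div_eq_iff h', sub_sub_cancel]
  field_simp
  ring

/-- the profile of the mask -/
def prof (y : ℝ) : ℝ := sin (π / 2 * smoothTransition (pol y))

lemma contDiff_prof {n : ℕ∞} : ContDiff ℝ n prof := by
  unfold prof
  refine contDiff_sin.comp (contDiff_const.mul (smoothTransition.contDiff.comp ?_))
  unfold pol
  fun_prop

lemma st_mem (t : ℝ) : π / 2 * smoothTransition t ∈ Icc 0 (π / 2) := by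
  constructor
  · exact mul_nonneg (by positivity) (smoothTransition.nonneg t)
  · exact mul_le_of_le_one_right (by positivity) (smoothTransition.le_one t)

lemma prof_nonneg (y : ℝ) : 0 ≤ prof y :=
  sin_nonneg_of_nonneg_of_le_pi (st_mem _).1 ((st_mem _).2.trans (by linarith [pi_pos]))

lemma prof_le_one (y : ℝ) : prof y ≤ 1 := sin_le_one _

lemma prof_sq_add (y : ℝ) : prof y ^ 2 + prof (-y) ^ 2 = 1 := by
  unfold prof
  rw [pol_neg, st_symm, mul_sub, mul_one, sin_pi_div_two_sub]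
  exact sin_sq_add_cos_sq _

lemma prof_pos {y : ℝ} (h1 : -3/4 < y) (h2 : y ≠ -1/2) : 0 < prof y := by
  apply sin_pos_of_pos_of_lt_pi
  · exact mul_pos (by positivity) (smoothTransition.pos_of_pos (pol_pos h1 h2))
  · exact (st_mem _).2.trans_lt (by linarith [pi_pos])

lemma prof_eq_zero {y : ℝ} (h : y ≤ -3/4 ∨ y = -1/2) : prof y = 0 := by
  unfold prof
  rw [smoothTransition.zero_of_nonpos (pol_nonpos h), mul_zero, sin_zero]

lemma prof_eq_one {y : ℝ} (h : 3/4 ≤ y ∨ y = 1/2) : prof y = 1 := by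
  have h0 : prof (-y) = 0 := by
    apply prof_eq_zero
    rcases h with h | h
    · left; linarith
    · right; linarith
  have h1 := prof_sq_add y
  rw [h0] at h1
  have h2 := prof_nonneg y
  nlinarith

/-- the mask -/
def m (x : ℝ) : ℝ := prof (cos (2 * π * x))

lemma contDiff_m {n : ℕ∞} : ContDiff ℝ n m := by
  unfold m
  refine contDiff_prof.comp (contDiff_cos.comp ?_)
  fun_prop

lemma continuous_m : Continuous m := (contDiff_m (n := 0)).continuous

lemma m_nonneg (x : ℝ) : 0 ≤ m x := prof_nonneg _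
lemma m_le_one (x : ℝ) : m x ≤ 1 := prof_le_one _

lemma m_add_one (x : ℝ) : m (x + 1) = m x := by
  unfold m
  rw [show 2 * π * (x + 1) = 2 * π * x + 2 * π by ring, cos_add_two_pi]

lemma m_periodic : Function.Periodic m 1 := m_add_one

lemma m_add_int (x : ℝ) (k : ℤ) : m (x + k) = m x := by
  have := m_periodic.int_mul k x
  simpa using this

lemma m_add_nat (x : ℝ) (k : ℕ) : m (x + k) = m x := by
  have := m_add_int x k
  simpa using this

lemma m_neg (x : ℝ) : m (-x) = m x := by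
  unfold m
  rw [show 2 * π * (-x) = -(2 * π * x) by ring, cos_neg]

lemma m_sq_add (x : ℝ) : m x ^ 2 + m (x + 1/2) ^ 2 = 1 := by
  unfold m
  rw [show 2 * π * (x + 1/2) = 2 * π * x + π by ring, cos_add_pi]
  exact prof_sq_add _

lemma m_eq_one {x : ℝ} (hx : |x| ≤ 1/10) : m x = 1 := by
  apply prof_eq_one
  left
  have h1 := one_sub_sq_div_two_le_cos (x := 2 * π * x)
  have h2 : (2 * π * x) ^ 2 ≤ 1/2 := by
    have h3 : x ^ 2 ≤ 1/100 := by
      rw [← sq_abs]
      nlinarith [abs_nonneg x]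
    have h4 : π ^ 2 ≤ 12.25 := by nlinarith [pi_pos, pi_lt_d2]
    nlinarith [sq_nonneg x, sq_nonneg π]
  linarith

lemma m_pos_of_cos {x : ℝ} (h1 : -3/4 < cos (2 * π * x)) (h2 : cos (2 * π * x) ≠ -1/2) :
    0 < m x := prof_pos h1 h2

lemma m_eq_zero_of_cos {x : ℝ} (h : cos (2 * π * x) ≤ -3/4 ∨ cos (2 * π * x) = -1/2) :
    m x = 0 := prof_eq_zero h

lemma m_pos {x : ℝ} (hx : |x| ≤ 1/4) : 0 < m x := by
  have h : 0 ≤ cos (2 * π * x) := by
    apply cos_nonneg_of_mem_Icc
    rw [abs_le] at hx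
    constructor <;> nlinarith [pi_pos]
  exact m_pos_of_cos (by linarith) (by linarith)

/-- Lipschitz bound at the zero `-1/2`. -/
lemma exists_m_le : ∃ C : ℝ, 1 ≤ C ∧ ∀ x, m x ≤ C * |cos (2 * π * x) + 1/2| := by
  have hc : Continuous (deriv prof) := (contDiff_prof (n := 1)).continuous_deriv le_rfl
  obtain ⟨C, hC⟩ := (isCompact_Icc (a := (-1 : ℝ)) (b := 1)).exists_bound_of_continuousOn
    hc.continuousOn
  refine ⟨max C 1, le_max_right _ _, fun x => ?_⟩
  have hd : ∀ y ∈ Icc (-1 : ℝ) 1, DifferentiableAt ℝ prof y := fun y _ =>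
    ((contDiff_prof (n := 1)).differentiable one_ne_zero) y
  have hx : cos (2 * π * x) ∈ Icc (-1 : ℝ) 1 := ⟨neg_one_le_cos _, cos_le_one _⟩
  have hy : (-1/2 : ℝ) ∈ Icc (-1 : ℝ) 1 := by constructor <;> norm_num
  have h := (convex_Icc (-1 : ℝ) 1).norm_image_sub_le_of_norm_deriv_le hd hC hy hx
  rw [prof_eq_zero (Or.inr rfl), sub_zero, norm_eq_abs, norm_eq_abs] at h
  have h2 : m x ≤ C * |cos (2 * π * x) - (-1/2)| := (le_abs_self _).trans h
  refine h2.trans ?_
  rw [show cos (2 * π * x) - (-1/2) = cos (2 * π * x) + 1/2 by ring]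
  exact mul_le_mul_of_nonneg_right (le_max_left _ _) (abs_nonneg _)

end

end Pool.Agent.MP27eeb4
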