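import Mathlib
import Pool.Agent.MP_27eeb4_an.Mask

/-!
The scaling function on the Fourier side: `Phi ξ = ∏_{j ≥ 1} m (ξ / 2^j)`.
-/

open Real Set Filter Topology

namespace Pool.Agent.MP27eeb4

noncomputable section

/-- partial products -/
def P (n : ℕ) (ξ : ℝ) : ℝ := ∏ j ∈ Finset.range n, m (ξ / 2 ^ (j + 1))

@[simp] lemma P_zero (ξ : ℝ) : P 0 ξ = 1 := by simp [P]

lemma P_succ (n : ℕ) (ξ : ℝ) : P (n + 1) ξ = P n ξ * m (ξ / 2 ^ (n + 1)) := by
  rw [P, Finset.prod_range_succ, ← P]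

lemma P_succ' (n : ℕ) (ξ : ℝ) : P (n + 1) ξ = m (ξ / 2) * P n (ξ / 2) := by
  rw [P, Finset.prod_range_succ', mul_comm, P]
  congr 1
  · simp
  · refine Finset.prod_congr rfl fun j _ => ?_
    rw [div_div, ← pow_succ']

lemma P_two_mul (n : ℕ) (ξ : ℝ) : P (n + 1) (2 * ξ) = m ξ * P n ξ := by
  rw [P_succ']; simp

lemma P_nonneg (n : ℕ) (ξ : ℝ) : 0 ≤ P n ξ := Finset.prod_nonneg fun _ _ => m_nonneg _

lemma P_le_one (n : ℕ) (ξ : ℝ) : P n ξ ≤ 1 :=
  Finset.prod_le_one (fun _ _ => m_nonneg _) (fun _ _ => m_le_one _)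

lemma P_neg (n : ℕ) (ξ : ℝ) : P n (-ξ) = P n ξ := by
  unfold P
  refine Finset.prod_congr rfl fun j _ => ?_
  rw [neg_div, m_neg]

lemma contDiff_P {k : ℕ∞} (n : ℕ) : ContDiff ℝ k (P n) := by
  unfold P
  exact contDiff_prod fun j _ => contDiff_m.comp (contDiff_id.div_const _)

lemma P_stable {n : ℕ} {ξ : ℝ} (h : 5 * |ξ| ≤ 2 ^ n) (k : ℕ) : P (n + k) ξ = P n ξ := by
  induction k with
  | zero => rfl
  | succ k ih =>
    rw [← add_assoc, P_succ, ih, m_eq_one, mul_one]
    rw [abs_div, abs_of_pos (by positivity : (0:ℝ) < 2 ^ (n + k + 1)), div_le_iff₀ (by positivity)]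
    have : (2:ℝ) ^ (n + k + 1) = 2 ^ n * 2 ^ k * 2 := by ring
    rw [this]
    have h2 : (1:ℝ) ≤ 2 ^ k := one_le_pow₀ (by norm_num)
    nlinarith [pow_pos (show (0:ℝ) < 2 by norm_num) n]

/-- The scaling function on the Fourier side. -/
def Phi (ξ : ℝ) : ℝ := P ⌈5 * |ξ|⌉₊ ξ

lemma Phi_eq {n : ℕ} {ξ : ℝ} (h : 5 * |ξ| ≤ 2 ^ n) : Phi ξ = P n ξ := by
  unfold Phi
  set N := ⌈5 * |ξ|⌉₊ with hN
  have h1 : 5 * |ξ| ≤ 2 ^ N := by
    refine (Nat.le_ceil _).trans ?_
    rw [← hN]
    exact_mod_cast (Nat.lt_two_pow_self (n := N)).le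
  rcases le_total N n with h2 | h2
  · obtain ⟨k, rfl⟩ := Nat.exists_eq_add_of_le h2
    exact (P_stable h1 k).symm
  · obtain ⟨k, hk⟩ := Nat.exists_eq_add_of_le h2
    rw [hk]
    exact P_stable h k

lemma Phi_nonneg (ξ : ℝ) : 0 ≤ Phi ξ := P_nonneg _ _
lemma Phi_le_one (ξ : ℝ) : Phi ξ ≤ 1 := P_le_one _ _

lemma exists_pow (ξ : ℝ) : ∃ n : ℕ, 5 * |ξ| < 2 ^ n := pow_unbounded_of_one_lt _ (by norm_num)

lemma Phi_two_mul (ξ : ℝ) : Phi (2 * ξ) = m ξ * Phi ξ := by
  obtain ⟨n, hn⟩ := exists_pow ξ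
  rw [Phi_eq hn.le, ← P_two_mul, Phi_eq]
  rw [abs_mul, abs_two, pow_succ]
  linarith

lemma Phi_eq_half (ξ : ℝ) : Phi ξ = m (ξ / 2) * Phi (ξ / 2) := by
  rw [← Phi_two_mul]; congr 1; ring

lemma Phi_split (n : ℕ) (ξ : ℝ) : Phi ξ = P n ξ * Phi (ξ / 2 ^ n) := by
  induction n with
  | zero => simp
  | succ n ih =>
    rw [ih, Phi_eq_half (ξ / 2 ^ n), P_succ, div_div, ← pow_succ, mul_assoc]

lemma Phi_neg (ξ : ℝ) : Phi (-ξ) = Phi ξ := by
  obtain ⟨n, hn⟩ := exists_pow ξ
  rw [Phi_eq hn.le, Phi_eq (by rw [abs_neg]; exact hn.le), P_neg]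

lemma Phi_eq_one {ξ : ℝ} (h : |ξ| ≤ 1/5) : Phi ξ = 1 := by
  rw [Phi_eq (n := 0) (by rw [pow_zero]; linarith), P_zero]

lemma Phi_eventuallyEq (n : ℕ) {ξ : ℝ} (h : 5 * |ξ| < 2 ^ n) : Phi =ᶠ[𝓝 ξ] P n := by
  have : ∀ᶠ y in 𝓝 ξ, 5 * |y| < 2 ^ n :=
    (continuous_const.mul continuous_abs).continuousAt.eventually_lt continuousAt_const h
  filter_upwards [this] with y hy
  exact Phi_eq hy.le

lemma contDiff_Phi {k : ℕ∞} : ContDiff ℝ k Phi := by
  rw [contDiff_iff_contDiffAt]
  intro ξ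
  obtain ⟨n, hn⟩ := exists_pow ξ
  exact (contDiff_P n).contDiffAt.congr_of_eventuallyEq (Phi_eventuallyEq n hn)

lemma continuous_Phi : Continuous Phi := (contDiff_Phi (k := 0)).continuous

lemma Phi_pos {ξ : ℝ} (h : |ξ| ≤ 1/2) : 0 < Phi ξ := by
  obtain ⟨n, hn⟩ := exists_pow ξ
  rw [Phi_eq hn.le]
  refine Finset.prod_pos fun j _ => m_pos ?_
  rw [abs_div, abs_of_pos (by positivity : (0:ℝ) < 2 ^ (j + 1)), div_le_iff₀ (by positivity), pow_succ]
  have h2 : (1:ℝ) ≤ 2 ^ j := one_le_pow₀ (by norm_num)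
  nlinarith

/-! ### Decay of `Phi` -/

/-- the signed distance of the orbit to the 2-cycle -/
def ee (x : ℝ) : ℝ := cos (2 * π * x) + 1/2

lemma ee_two_mul (x : ℝ) : ee (2 * x) = -2 * ee x * (1 - ee x) := by
  unfold ee
  rw [show 2 * π * (2 * x) = 2 * (2 * π * x) by ring, cos_two_mul]
  ring

lemma ee_gt {x : ℝ} (h : m x ≠ 0) : -1/4 < ee x := by
  by_contra hc
  apply h
  apply m_eq_zero_of_cos
  left
  unfold ee at hc
  linarith

/-- the trapping argument -/
lemma trap {e : ℕ → ℝ} (he : ∀ i, e (i + 1) = -2 * e i * (1 - e i)) (h0 : e 0 ≤ 1/2) {n : ℕ}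
    (hn : ∀ i < n, -1/4 < e i) :
    (∀ i < n, e i < 5/8) ∧ ∀ i, i + 1 < n → 17/10 * |e i| ≤ |e (i + 1)| := by
  have h1 : ∀ i < n, e i < 5/8 := by
    intro i
    induction i with
    | zero => intro _; linarith
    | succ i ih =>
      intro hi
      have h2 := ih (by omega)
      have h3 := hn i (by omega)
      rw [he]
      rcases le_total (e i) 0 with h4 | h4 <;> nlinarith
  refine ⟨h1, fun i hi => ?_⟩
  have h2 := h1 i (by omega)
  have h3 := hn i (by omega)
  have h5 := hn (i + 1) hi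
  rw [he] at h5
  rcases le_total (e i) 0 with h4 | h4
  · rw [he, abs_of_nonpos h4, abs_of_nonneg (by nlinarith)]
    nlinarith
  · have h6 : e i < 3/20 := by
      by_contra hc
      push Not at hc
      nlinarith
    rw [he, abs_of_nonneg h4, abs_of_nonpos (by nlinarith)]
    nlinarith

lemma trap_bound {e : ℕ → ℝ} (he : ∀ i, e (i + 1) = -2 * e i * (1 - e i)) (h0 : e 0 ≤ 1/2) {n : ℕ}
    (hn : ∀ i < n, -1/4 < e i) : ∀ k < n, |e (n - 1 - k)| ≤ (10/17 : ℝ) ^ k := by
  obtain ⟨h1, h2⟩ := trap he h0 hn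
  intro k
  induction k with
  | zero =>
    intro h
    rw [pow_zero, abs_le]
    have := h1 (n - 1 - 0) (by omega)
    have := hn (n - 1 - 0) (by omega)
    constructor <;> linarith
  | succ k ih =>
    intro h
    have h3 := ih (by omega)
    have h4 := h2 (n - 1 - (k + 1)) (by omega)
    rw [show n - 1 - (k + 1) + 1 = n - 1 - k by omega] at h4
    rw [pow_succ]
    linarith

lemma prod_bound {a q : ℝ} (ha : 1 ≤ a) (hq : 0 ≤ q) (hq1 : q < 1) :
    ∃ B : ℝ, ∀ n : ℕ, ∏ j ∈ Finset.range n, (a * q ^ j) ≤ B := by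
  obtain ⟨J, hJ⟩ : ∃ J : ℕ, q ^ J < 1 / a := exists_pow_lt_of_lt_one (by positivity) hq1
  refine ⟨a ^ J, fun n => ?_⟩
  have key : ∀ j, a * q ^ j ≤ if j < J then a else 1 := by
    intro j
    split_ifs with h
    · exact mul_le_of_le_one_right (by linarith) (pow_le_one₀ hq hq1.le)
    · push Not at h
      have h1 : q ^ j ≤ q ^ J := pow_le_pow_of_le_one hq hq1.le h
      calc a * q ^ j ≤ a * (1 / a) := by
            apply mul_le_mul_of_nonneg_left _ (by linarith)
            linarith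
        _ = 1 := by field_simp
  calc ∏ j ∈ Finset.range n, (a * q ^ j) ≤ ∏ j ∈ Finset.range n, (if j < J then a else 1) :=
        Finset.prod_le_prod (fun j _ => by positivity) (fun j _ => key j)
    _ = a ^ ((Finset.range n).filter (· < J)).card := by
        rw [Finset.prod_ite]; simp
    _ ≤ a ^ J := by
        apply pow_le_pow_right₀ ha
        calc ((Finset.range n).filter (· < J)).card ≤ (Finset.range J).card := by
              apply Finset.card_le_card
              intro x hx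
              simp only [Finset.mem_filter, Finset.mem_range] at hx ⊢
              exact hx.2
          _ = J := Finset.card_range J

lemma exists_scale {ξ : ℝ} (h : 1/2 < |ξ|) : ∃ n : ℕ, 1/4 ≤ |ξ / 2 ^ n| ∧ |ξ / 2 ^ n| ≤ 1/2 := by
  have hex : ∃ n : ℕ, |ξ| ≤ 2 ^ n / 2 := by
    obtain ⟨n, hn⟩ := pow_unbounded_of_one_lt (2 * |ξ|) (show (1:ℝ) < 2 by norm_num)
    exact ⟨n, by linarith⟩
  classical
  set n := Nat.find hex with hn
  have h1 : |ξ| ≤ 2 ^ n / 2 := Nat.find_spec hex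
  refine ⟨n, ?_, ?_⟩
  · have hpos : 0 < n := by
      rcases Nat.eq_zero_or_pos n with h0 | h0
      · rw [h0, pow_zero] at h1; linarith
      · exact h0
    have h2 : ¬ |ξ| ≤ 2 ^ (n - 1) / 2 := Nat.find_min hex (by omega)
    push Not at h2
    rw [abs_div, abs_of_pos (by positivity : (0:ℝ) < 2 ^ n), le_div_iff₀ (by positivity)]
    have h3 : (2:ℝ) ^ n = 2 ^ (n - 1) * 2 := by
      rw [← pow_succ]; congr 1; omega
    rw [h3]; linarith
  · rw [abs_div, abs_of_pos (by positivity : (0:ℝ) < 2 ^ n), div_le_iff₀ (by positivity)]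
    linarith

lemma Phi_decay (k : ℕ) : ∃ B : ℝ, ∀ ξ, |ξ| ^ k * Phi ξ ≤ B := by
  obtain ⟨C, hC1, hC⟩ := exists_m_le
  obtain ⟨B, hB⟩ := prod_bound (a := 2 ^ k * C) (q := 10/17)
    (by have : (1:ℝ) ≤ 2 ^ k := one_le_pow₀ (by norm_num)
        nlinarith) (by norm_num) (by norm_num)
  refine ⟨max B 1, fun ξ => ?_⟩
  rcases le_or_gt |ξ| (1/2) with hξ | hξ
  · refine le_trans ?_ (le_max_right _ _)
    have h1 : |ξ| ^ k ≤ 1 := pow_le_one₀ (abs_nonneg _) (by linarith)
    calc |ξ| ^ k * Phi ξ ≤ 1 * 1 :=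
          mul_le_mul h1 (Phi_le_one _) (Phi_nonneg _) (by norm_num)
      _ = 1 := by norm_num
  · by_cases h0 : Phi ξ = 0
    · rw [h0, mul_zero]; exact le_trans zero_le_one (le_max_right _ _)
    refine le_trans ?_ (le_max_left _ _)
    obtain ⟨n, hn1, hn2⟩ := exists_scale hξ
    set x := ξ / 2 ^ n with hx
    have hξx : ξ = 2 ^ n * x := by rw [hx]; field_simp
    have hP : P n ξ ≠ 0 := by
      intro h; apply h0; rw [Phi_split n, h, zero_mul]
    have hm : ∀ i < n, m (2 ^ i * x) ≠ 0 := by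
      intro i hi
      have := Finset.prod_ne_zero_iff.1 hP (n - 1 - i) (Finset.mem_range.2 (by omega))
      rw [hξx] at this
      convert this using 2
      rw [show n - 1 - i + 1 = n - i by omega, eq_div_iff (by positivity)]
      rw [mul_right_comm, ← pow_add]
      congr 2; omega
    have he0 : ee (2 ^ 0 * x) ≤ 1/2 := by
      have : cos (2 * π * x) ≤ 0 := by
        rw [← cos_abs]
        apply cos_nonpos_of_pi_div_two_le_of_le
        · rw [abs_mul, abs_of_pos (by positivity : (0:ℝ) < 2 * π)]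
          nlinarith [pi_pos]
        · rw [abs_mul, abs_of_pos (by positivity : (0:ℝ) < 2 * π)]
          nlinarith [pi_pos]
      unfold ee; rw [pow_zero, one_mul]; linarith
    have hb := trap_bound (e := fun i => ee (2 ^ i * x))
      (fun i => by
        rw [pow_succ', mul_assoc, ee_two_mul]) he0 (n := n) (fun i hi => ee_gt (hm i hi))
    calc |ξ| ^ k * Phi ξ ≤ (2 ^ n) ^ k * P n ξ := by
          apply mul_le_mul _ _ (Phi_nonneg _) (by positivity)
          · apply pow_le_pow_left₀ (abs_nonneg _)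
            rw [hξx, abs_mul, abs_of_pos (by positivity : (0:ℝ) < 2 ^ n)]
            have : (0:ℝ) < 2 ^ n := by positivity
            nlinarith
          · rw [Phi_split n]
            exact mul_le_of_le_one_right (P_nonneg _ _) (Phi_le_one _)
      _ = ∏ j ∈ Finset.range n, (2 ^ k * m (ξ / 2 ^ (j + 1))) := by
          rw [Finset.prod_mul_distrib, P]
          congr 1
          rw [Finset.prod_const, Finset.card_range, ← pow_mul, ← pow_mul, mul_comm]
      _ ≤ ∏ j ∈ Finset.range n, (2 ^ k * C * (10/17) ^ j) := by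
          refine Finset.prod_le_prod (fun j _ => mul_nonneg (by positivity) (m_nonneg _)) ?_
          intro j hj
          rw [mul_assoc]
          apply mul_le_mul_of_nonneg_left _ (by positivity)
          have hj' : j < n := Finset.mem_range.1 hj
          have h1 := hb j hj'
          have h2 : ξ / 2 ^ (j + 1) = 2 ^ (n - 1 - j) * x := by
            rw [hξx, div_eq_iff (by positivity), mul_right_comm, ← pow_add]
            congr 2; omega
          rw [h2]
          exact (hC _).trans (mul_le_mul_of_nonneg_left h1 (by linarith))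
      _ ≤ B := hB n

/-! ### Boundedness of all derivatives -/

lemma m_deriv_bound (j : ℕ) : ∃ M : ℝ, ∀ x, |iteratedDeriv j m x| ≤ M := by
  have hc : Continuous (iteratedDeriv j m) :=
    (contDiff_m (n := (j : ℕ∞))).continuous_iteratedDeriv j le_rfl
  have hp : Function.Periodic (iteratedDeriv j m) 1 := by
    intro x
    have h := congrFun (iteratedDeriv_comp_add_const j m 1) x
    have h2 : (fun z => m (z + 1)) = m := funext m_add_one
    rw [h2] at h
    exact h.symm
  obtain ⟨M, hM⟩ := (isCompact_Icc (a := (0 : ℝ)) (b := 1)).exists_bound_of_continuousOn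
    hc.continuousOn
  refine ⟨M, fun x => ?_⟩
  obtain ⟨y, hy, hxy⟩ := hp.exists_mem_Ico₀ one_pos x
  rw [hxy]
  exact hM y (Ico_subset_Icc_self hy)

lemma Phi_deriv_rec (r : ℕ) (ξ : ℝ) :
    iteratedDeriv r Phi ξ = ∑ i ∈ Finset.range (r + 1),
      (r.choose i : ℝ) * ((1/2) ^ i * iteratedDeriv i m (1/2 * ξ))
        * ((1/2) ^ (r - i) * iteratedDeriv (r - i) Phi (1/2 * ξ)) := by
  have h1 : Phi = (fun x => m (1/2 * x)) * (fun x => Phi (1/2 * x)) := by
    funext x
    simp only [Pi.mul_apply]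
    rw [Phi_eq_half x]
    congr 2 <;> ring
  have c1 : ContDiff ℝ r (fun x => m (1/2 * x)) := contDiff_m.comp (contDiff_const.mul contDiff_id)
  have c2 : ContDiff ℝ r (fun x => Phi (1/2 * x)) :=
    contDiff_Phi.comp (contDiff_const.mul contDiff_id)
  conv_lhs => rw [h1]
  rw [iteratedDeriv_mul c1.contDiffAt c2.contDiffAt]
  refine Finset.sum_congr rfl fun i _ => ?_
  rw [congrFun (iteratedDeriv_comp_const_mul (contDiff_m (n := (i : ℕ∞))) (1/2)) ξ,
    congrFun (iteratedDeriv_comp_const_mul (contDiff_Phi (k := ((r - i : ℕ) : ℕ∞))) (1/2)) ξ]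

lemma Phi_deriv_zero_near (r : ℕ) (hr : 1 ≤ r) {ξ : ℝ} (h : 5 * |ξ| < 1) :
    iteratedDeriv r Phi ξ = 0 := by
  have h1 := Phi_eventuallyEq 0 (ξ := ξ) (by simpa using h)
  rw [h1.iteratedDeriv_eq]
  have : P 0 = fun _ => (1:ℝ) := by funext x; simp
  rw [this, iteratedDeriv_const, if_neg (by omega)]

lemma Phi_deriv_bound (r : ℕ) : ∃ K : ℝ, 0 ≤ K ∧ ∀ x, |iteratedDeriv r Phi x| ≤ K := by
  induction r using Nat.strong_induction_on with
  | _ r ih =>
    rcases Nat.eq_zero_or_pos r with h0 | hpos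
    · subst h0
      refine ⟨1, zero_le_one, fun x => ?_⟩
      rw [iteratedDeriv_zero, abs_of_nonneg (Phi_nonneg _)]
      exact Phi_le_one _
    choose M hM using m_deriv_bound
    have ih' : ∀ s : ℕ, ∃ K : ℝ, 0 ≤ K ∧ (s < r → ∀ x, |iteratedDeriv s Phi x| ≤ K) := by
      intro s
      by_cases hs : s < r
      · obtain ⟨K, hK0, hK⟩ := ih s hs
        exact ⟨K, hK0, fun _ => hK⟩
      · exact ⟨0, le_rfl, fun h => absurd h hs⟩
    choose K hK0 hK using ih'
    set K' := ∑ i ∈ Finset.range r, (r.choose (i + 1) : ℝ) * M (i + 1) * K (r - (i + 1)) with hK'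
    have hM0 : ∀ i, 0 ≤ M i := fun i => (abs_nonneg _).trans (hM i 0)
    have hK'0 : 0 ≤ K' := Finset.sum_nonneg fun i _ =>
      mul_nonneg (mul_nonneg (by positivity) (hM0 _)) (hK0 _)
    have hhalf : ∀ k : ℕ, |((1/2 : ℝ)) ^ k| ≤ 1 := fun k => by
      rw [abs_of_nonneg (by positivity)]
      exact pow_le_one₀ (by norm_num) (by norm_num)
    have step : ∀ ξ, |iteratedDeriv r Phi ξ| ≤ 1/2 * |iteratedDeriv r Phi (1/2 * ξ)| + K' := by
      intro ξ
      rw [Phi_deriv_rec, Finset.sum_range_succ']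
      refine (abs_add_le _ _).trans ?_
      rw [add_comm]
      apply add_le_add
      · simp only [Nat.choose_zero_right, Nat.cast_one, pow_zero, one_mul, iteratedDeriv_zero,
          Nat.sub_zero]
        rw [abs_mul, abs_mul, abs_of_nonneg (m_nonneg _), abs_of_nonneg (by positivity : (0:ℝ) ≤ (1/2)^r)]
        have h1 : ((1/2:ℝ))^r ≤ 1/2 := by
          calc ((1/2:ℝ))^r ≤ (1/2)^1 := pow_le_pow_of_le_one (by norm_num) (by norm_num) hpos
            _ = 1/2 := pow_one _
        have h2 := m_le_one (1/2 * ξ)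
        have h3 := m_nonneg (1/2 * ξ)
        have h4 := abs_nonneg (iteratedDeriv r Phi (1/2 * ξ))
        calc m (1/2 * ξ) * ((1/2)^r * |iteratedDeriv r Phi (1/2 * ξ)|)
            ≤ 1 * (1/2 * |iteratedDeriv r Phi (1/2 * ξ)|) := by gcongr
          _ = _ := one_mul _
      · refine (Finset.abs_sum_le_sum_abs _ _).trans ?_
        refine Finset.sum_le_sum fun i hi => ?_
        have hi' : i < r := Finset.mem_range.1 hi
        rw [abs_mul, abs_mul, abs_mul, abs_mul, Nat.abs_cast]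
        have h5 := hM (i + 1) (1/2 * ξ)
        have h6 := hK (r - (i + 1)) (by omega) (1/2 * ξ)
        have h7 := hhalf (i + 1)
        have h8 := hhalf (r - (i + 1))
        have h9 := hK0 (r - (i + 1))
        calc (r.choose (i + 1) : ℝ) * (|(1/2)^(i+1)| * |iteratedDeriv (i+1) m (1/2 * ξ)|)
              * (|(1/2)^(r - (i+1))| * |iteratedDeriv (r - (i+1)) Phi (1/2 * ξ)|)
            ≤ (r.choose (i + 1) : ℝ) * (1 * M (i+1)) * (1 * K (r - (i+1))) := by
              gcongr
              exact mul_nonneg (Nat.cast_nonneg _) (by rw [one_mul]; exact hM0 _)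
          _ = _ := by ring
    refine ⟨2 * K', by positivity, fun x => ?_⟩
    obtain ⟨n, hn⟩ := exists_pow x
    have main : ∀ n : ℕ, ∀ x : ℝ, 5 * |x| < 2 ^ n → |iteratedDeriv r Phi x| ≤ 2 * K' := by
      intro n
      induction n with
      | zero =>
        intro x hx
        rw [Phi_deriv_zero_near r hpos (by simpa using hx), abs_zero]
        positivity
      | succ n ihn =>
        intro x hx
        have h1 : 5 * |1/2 * x| < 2 ^ n := by
          rw [abs_mul, abs_of_pos (by norm_num : (0:ℝ) < 1/2)]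
          rw [pow_succ] at hx
          linarith
        have h2 := ihn _ h1
        have h3 := step x
        linarith
    exact main n x hn

/-! ### Decay of all derivatives -/

lemma landau {g : ℝ → ℝ} (hg : ContDiff ℝ 2 g) {M : ℝ} (hM : ∀ x, |iteratedDeriv 2 g x| ≤ M)
    (x h : ℝ) (hh : h ≠ 0) :
    |deriv g x| ≤ (|g (x + h)| + |g x|) / |h| + M * |h| := by
  have hd : Differentiable ℝ g := hg.differentiable (by norm_num)
  have hd2 : Differentiable ℝ (deriv g) := by
    have := hg.differentiable_iteratedDeriv 1 (by norm_num)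
    rwa [iteratedDeriv_one] at this
  have e2 : iteratedDeriv 2 g = deriv (deriv g) := by
    rw [iteratedDeriv_succ, iteratedDeriv_one]
  have hlip : ∀ a b, |deriv g a - deriv g b| ≤ M * |a - b| := by
    intro a b
    have := (convex_univ (𝕜 := ℝ) (E := ℝ)).norm_image_sub_le_of_norm_deriv_le (f := deriv g)
      (fun y _ => hd2 y) (C := M) (fun y _ => by rw [← e2]; exact hM y) (mem_univ b) (mem_univ a)
    simpa using this
  have key : ∃ c, |c - x| ≤ |h| ∧ deriv g c * h = g (x + h) - g x := by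
    rcases lt_or_gt_of_ne hh with h1 | h1
    · obtain ⟨c, hc, hc2⟩ := exists_deriv_eq_slope g (show x + h < x by linarith)
        hd.continuous.continuousOn hd.differentiableOn
      refine ⟨c, ?_, ?_⟩
      · rw [abs_of_neg h1, abs_le]; constructor <;> linarith [hc.1, hc.2]
      · rw [hc2, show x - (x + h) = -h by ring, div_neg, neg_mul, div_mul_cancel₀ _ hh]; ring
    · obtain ⟨c, hc, hc2⟩ := exists_deriv_eq_slope g (show x < x + h by linarith)
        hd.continuous.continuousOn hd.differentiableOn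
      refine ⟨c, ?_, ?_⟩
      · rw [abs_of_pos h1, abs_le]; constructor <;> linarith [hc.1, hc.2]
      · rw [hc2, show x + h - x = h by ring, div_mul_cancel₀ _ hh]
  obtain ⟨c, hc1, hc2⟩ := key
  have hM0 : 0 ≤ M := (abs_nonneg _).trans (hM 0)
  have hpos : 0 < |h| := abs_pos.2 hh
  have h3 : |deriv g c| ≤ (|g (x + h)| + |g x|) / |h| := by
    rw [le_div_iff₀ hpos, ← abs_mul, hc2]
    exact abs_sub _ _
  have h4 := hlip x c
  have h5 : |x - c| ≤ |h| := by rw [abs_sub_comm]; exact hc1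
  calc |deriv g x| = |deriv g c + (deriv g x - deriv g c)| := by ring_nf
    _ ≤ |deriv g c| + |deriv g x - deriv g c| := abs_add_le _ _
    _ ≤ (|g (x + h)| + |g x|) / |h| + M * |h| := by
        apply add_le_add h3
        exact h4.trans (mul_le_mul_of_nonneg_left h5 hM0)

lemma decay_deriv {g : ℝ → ℝ} (hg : ContDiff ℝ 2 g) {M : ℝ} (hM : ∀ x, |iteratedDeriv 2 g x| ≤ M)
    {M1 : ℝ} (hM1 : ∀ x, |deriv g x| ≤ M1)
    (hdec : ∀ k : ℕ, ∃ B : ℝ, ∀ x, |x| ^ k * |g x| ≤ B) (k : ℕ) :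
    ∃ B : ℝ, ∀ x, |x| ^ k * |deriv g x| ≤ B := by
  obtain ⟨A, hA⟩ := hdec (2 * k)
  have hA0 : 0 ≤ A := le_trans (by positivity) (hA 0)
  have hM0 : 0 ≤ M := (abs_nonneg _).trans (hM 0)
  have hM10 : 0 ≤ M1 := (abs_nonneg _).trans (hM1 0)
  refine ⟨M1 + (2 * A + M), fun x => ?_⟩
  rcases le_or_gt |x| 1 with hx | hx
  · have h1 : |x| ^ k ≤ 1 := pow_le_one₀ (abs_nonneg _) hx
    have := mul_le_mul h1 (hM1 x) (abs_nonneg _) zero_le_one
    linarith
  · have hxpos : 0 < |x| := by linarith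
    -- choose a step in the outward direction
    set h : ℝ := (if 0 ≤ x then 1 else -1) * (|x| ^ k)⁻¹ with hh
    have hxk : 0 < |x| ^ k := by positivity
    have habs : |h| = (|x| ^ k)⁻¹ := by
      rw [hh, abs_mul, abs_of_pos (inv_pos.2 hxk)]
      split_ifs <;> simp
    have hne : h ≠ 0 := by
      rw [← abs_pos, habs]; positivity
    have hout : |x| ≤ |x + h| := by
      rw [hh]
      split_ifs with h0
      · rw [abs_of_nonneg h0, one_mul, abs_of_nonneg (by positivity)]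
        have : 0 < (x ^ k)⁻¹ := by rw [abs_of_nonneg h0] at hxk; positivity
        linarith
      · push Not at h0
        have : 0 < (|x| ^ k)⁻¹ := by positivity
        rw [abs_of_neg h0] at this ⊢
        rw [abs_of_neg (by linarith)]
        linarith
    have g1 : |g x| ≤ A / (|x| ^ k) ^ 2 := by
      rw [le_div_iff₀ (by positivity), mul_comm, ← pow_mul, mul_comm k 2]
      exact hA x
    have g2 : |g (x + h)| ≤ A / (|x| ^ k) ^ 2 := by
      rw [le_div_iff₀ (by positivity), mul_comm, ← pow_mul, mul_comm k 2]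
      refine le_trans ?_ (hA (x + h))
      gcongr
    have h3 := landau hg hM x h hne
    rw [habs, div_inv_eq_mul] at h3
    have h4 : |deriv g x| ≤ (2 * A + M) / |x| ^ k := by
      refine h3.trans ?_
      calc (|g (x + h)| + |g x|) * |x| ^ k + M * (|x| ^ k)⁻¹
          ≤ (A / (|x| ^ k) ^ 2 + A / (|x| ^ k) ^ 2) * |x| ^ k + M * (|x| ^ k)⁻¹ := by gcongr
        _ = (2 * A + M) / |x| ^ k := by field_simp; ring
    rw [le_div_iff₀ hxk] at h4
    linarith

lemma Phi_schwartz (k n : ℕ) : ∃ B : ℝ, ∀ x, |x| ^ k * |iteratedDeriv n Phi x| ≤ B := by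
  induction n generalizing k with
  | zero =>
    obtain ⟨B, hB⟩ := Phi_decay k
    refine ⟨B, fun x => ?_⟩
    rw [iteratedDeriv_zero, abs_of_nonneg (Phi_nonneg _)]
    exact hB x
  | succ n ih =>
    have hg : ContDiff ℝ 2 (iteratedDeriv n Phi) := by
      rw [iteratedDeriv_eq_iterate]
      have : ContDiff ℝ ((2 + n : ℕ) : ℕ∞) Phi := contDiff_Phi
      exact (ContDiff.iterate_deriv' 2 n (by exact_mod_cast this))
    obtain ⟨M, -, hM⟩ := Phi_deriv_bound (n + 2)
    obtain ⟨M1, -, hM1⟩ := Phi_deriv_bound (n + 1)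
    have e1 : deriv (iteratedDeriv n Phi) = iteratedDeriv (n + 1) Phi := iteratedDeriv_succ.symm
    have e2 : iteratedDeriv 2 (iteratedDeriv n Phi) = iteratedDeriv (n + 2) Phi := by
      rw [iteratedDeriv_succ, iteratedDeriv_one, e1, ← iteratedDeriv_succ]
    obtain ⟨B, hB⟩ := decay_deriv hg (M := M) (by rw [e2]; exact hM) (M1 := M1)
      (by rw [e1]; exact hM1) ih k
    exact ⟨B, by rw [← e1]; exact hB⟩

end

end Pool.Agent.MP27eeb4
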