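import Mathlib
import Pool.Agent.MP_27eeb4_an.Phi

/-!
`∫ Phi^2 = 1` (Cohen's argument) and the wavelet on the Fourier side.
-/

open Real Set Filter Topology MeasureTheory

namespace Pool.Agent.MP27eeb4

noncomputable section

lemma P_periodic (n : ℕ) : Function.Periodic (P n) (2 ^ n) := by
  intro x
  unfold P
  refine Finset.prod_congr rfl fun j hj => ?_
  have hj' : j < n := Finset.mem_range.1 hj
  have : (x + 2 ^ n) / 2 ^ (j + 1) = x / 2 ^ (j + 1) + ((2 ^ (n - (j + 1)) : ℕ) : ℝ) := by
    push_cast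
    rw [add_div]
    congr 1
    rw [div_eq_iff (by positivity), ← pow_add]
    congr 1; omega
  rw [this, m_add_nat]

lemma continuous_P (n : ℕ) : Continuous (P n) := (contDiff_P (k := 0) n).continuous

lemma integral_P (n : ℕ) : ∫ x in (0:ℝ)..2 ^ n, P n x ^ 2 = 1 := by
  induction n with
  | zero => simp
  | succ n ih =>
    have hc : Continuous fun x => P (n + 1) x ^ 2 := (continuous_P _).pow 2
    have hsplit := intervalIntegral.integral_add_adjacent_intervals
      (hc.intervalIntegrable (μ := volume) 0 (2 ^ n)) (hc.intervalIntegrable (2 ^ n) (2 ^ (n + 1)))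
    rw [← hsplit]
    have hshift : ∫ x in (2:ℝ) ^ n..2 ^ (n + 1), P (n + 1) x ^ 2
        = ∫ x in (0:ℝ)..2 ^ n, P (n + 1) (x + 2 ^ n) ^ 2 := by
      rw [intervalIntegral.integral_comp_add_right (fun x => P (n + 1) x ^ 2)]
      congr 1 <;> ring
    have hc2 : Continuous fun x => P (n + 1) (x + 2 ^ n) ^ 2 :=
      hc.comp (continuous_id.add continuous_const)
    rw [hshift, ← intervalIntegral.integral_add (hc.intervalIntegrable _ _)
      (hc2.intervalIntegrable _ _)]
    rw [← ih]
    refine intervalIntegral.integral_congr fun x _ => ?_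
    rw [P_succ, P_succ, P_periodic n x]
    have h2 : (x + 2 ^ n) / 2 ^ (n + 1) = x / 2 ^ (n + 1) + 1/2 := by
      field_simp
      ring
    rw [h2]
    have := m_sq_add (x / 2 ^ (n + 1))
    calc (P n x * m (x / 2 ^ (n + 1))) ^ 2 + (P n x * m (x / 2 ^ (n + 1) + 1 / 2)) ^ 2
        = P n x ^ 2 * (m (x / 2 ^ (n + 1)) ^ 2 + m (x / 2 ^ (n + 1) + 1/2) ^ 2) := by ring
      _ = P n x ^ 2 := by rw [this, mul_one]

lemma integral_P_symm (n : ℕ) : ∫ x in (-(2 ^ n / 2) : ℝ)..(2 ^ n / 2), P n x ^ 2 = 1 := by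
  have hp : Function.Periodic (fun x => P n x ^ 2) (2 ^ n) := fun x => by
    simp only [P_periodic n x]
  have := hp.intervalIntegral_add_eq (-(2 ^ n / 2)) 0
  rw [zero_add, integral_P] at this
  rw [← this]
  congr 1; ring

lemma Phi_integrable_bound : ∃ B : ℝ, 0 ≤ B ∧ ∀ x, Phi x ≤ B * (1 + x ^ 2)⁻¹ := by
  obtain ⟨B, hB⟩ := Phi_decay 2
  have hB0 : 0 ≤ B := le_trans (mul_nonneg (by positivity) (Phi_nonneg 0)) (hB 0)
  refine ⟨1 + B, by positivity, fun x => ?_⟩
  rw [← div_eq_mul_inv, le_div_iff₀ (by positivity)]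
  have h1 := hB x
  have h2 := Phi_le_one x
  rw [sq_abs] at h1
  nlinarith

lemma integrable_Phi : Integrable Phi := by
  obtain ⟨B, hB0, hB⟩ := Phi_integrable_bound
  refine (integrable_inv_one_add_sq.const_mul B).mono' continuous_Phi.aestronglyMeasurable ?_
  filter_upwards with x
  rw [norm_eq_abs, abs_of_nonneg (Phi_nonneg x)]
  exact hB x

lemma integrable_Phi_sq : Integrable fun x => Phi x ^ 2 := by
  refine integrable_Phi.mono' (continuous_Phi.pow 2).aestronglyMeasurable ?_
  filter_upwards with x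
  rw [norm_eq_abs, abs_of_nonneg (by positivity)]
  nlinarith [Phi_nonneg x, Phi_le_one x]

lemma integral_Phi_sq : ∫ x, Phi x ^ 2 = 1 := by
  obtain ⟨x0, hx0, hmin⟩ := (isCompact_Icc (a := (-1/2 : ℝ)) (b := 1/2)).exists_isMinOn
    ⟨0, by constructor <;> norm_num⟩ continuous_Phi.continuousOn
  set c := Phi x0 with hc
  have hcpos : 0 < c := Phi_pos (by rw [abs_le]; exact ⟨by linarith [hx0.1], hx0.2⟩)
  have hcle : ∀ x, |x| ≤ 1/2 → c ≤ Phi x := by
    intro x hx
    rw [abs_le] at hx
    exact hmin ⟨by linarith [hx.1], hx.2⟩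
  set F : ℕ → ℝ → ℝ := fun n => (Ioc (-(2 ^ n / 2) : ℝ) (2 ^ n / 2)).indicator fun x => P n x ^ 2
    with hF
  have hint : ∀ n, ∫ x, F n x = 1 := by
    intro n
    rw [hF]
    simp only
    rw [integral_indicator measurableSet_Ioc, ← intervalIntegral.integral_of_le, integral_P_symm]
    have : (0:ℝ) < 2 ^ n := by positivity
    linarith
  have hlim : Tendsto (fun n => ∫ x, F n x) atTop (𝓝 (∫ x, Phi x ^ 2)) := by
    refine tendsto_integral_of_dominated_convergence (fun x => (c ^ 2)⁻¹ * Phi x ^ 2) ?_ ?_ ?_ ?_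
    · intro n
      exact (((continuous_P n).pow 2).aestronglyMeasurable).indicator measurableSet_Ioc
    · exact integrable_Phi_sq.const_mul _
    · intro n
      filter_upwards with x
      rw [hF]
      simp only [indicator]
      split_ifs with h
      · rw [norm_eq_abs, abs_of_nonneg (by positivity), le_inv_mul_iff₀ (by positivity),
          Phi_split n x, mul_pow, mul_comm]
        apply mul_le_mul_of_nonneg_left _ (by positivity)
        apply pow_le_pow_left₀ hcpos.le
        apply hcle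
        rw [abs_div, abs_of_pos (by positivity : (0:ℝ) < 2 ^ n), div_le_iff₀ (by positivity),
          abs_le]
        constructor <;> linarith [h.1, h.2]
      · rw [norm_zero]; positivity
    · filter_upwards with x
      obtain ⟨N, hN⟩ := exists_pow x
      apply tendsto_const_nhds.congr'
      filter_upwards [eventually_ge_atTop N] with n hn
      have h1 : 5 * |x| < 2 ^ n := hN.trans_le (pow_le_pow_right₀ (by norm_num) hn)
      rw [hF]
      simp only
      rw [indicator_of_mem, Phi_eq h1.le]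
      have := abs_nonneg x
      have h2 : |x| < 2 ^ n / 2 := by linarith
      rw [abs_lt] at h2
      exact ⟨h2.1, h2.2.le⟩
  have : Tendsto (fun n => ∫ x, F n x) atTop (𝓝 1) := by
    simp only [hint]; exact tendsto_const_nhds
  exact tendsto_nhds_unique hlim this

/-- The wavelet on the Fourier side. -/
def psiHat (ξ : ℝ) : ℂ := Complex.exp (-(π * ξ) * Complex.I) * ((m (ξ / 2 + 1/2) * Phi (ξ / 2) : ℝ) : ℂ)

lemma norm_psiHat_sq (ξ : ℝ) : ‖psiHat ξ‖ ^ 2 = Phi (1/2 * ξ) ^ 2 - Phi ξ ^ 2 := by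
  unfold psiHat
  rw [norm_mul]
  have : ‖Complex.exp (-(π * ξ) * Complex.I)‖ = 1 := by
    have := Complex.norm_exp_ofReal_mul_I (-(π * ξ))
    push_cast at this
    exact this
  rw [this, one_mul, Complex.norm_real, norm_eq_abs, sq_abs, mul_pow, Phi_eq_half ξ]
  have h := m_sq_add (ξ / 2)
  have h2 : (1:ℝ)/2 * ξ = ξ / 2 := by ring
  rw [h2]
  linear_combination Phi (ξ / 2) ^ 2 * h

lemma integral_psiHat_sq : ∫ ξ, ‖psiHat ξ‖ ^ 2 = 1 := by
  simp only [norm_psiHat_sq]
  rw [integral_sub (integrable_Phi_sq.comp_mul_left' (by norm_num)) integrable_Phi_sq,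
    integral_Phi_sq]
  rw [Measure.integral_comp_mul_left (fun x => Phi x ^ 2) (1/2), integral_Phi_sq]
  norm_num

end

end Pool.Agent.MP27eeb4
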