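import Mathlib

/-!
Periodization of continuous compactly supported functions on the line, and Parseval.
-/

open Real Set Filter Topology MeasureTheory FourierTransform TopologicalSpace

namespace Pool.Agent.MP27eeb4

noncomputable section

/-- periodization -/
def per (F : ℝ → ℂ) (x : ℝ) : ℂ := ∑' l : ℤ, F (x + l)

lemma exists_support_bound {F : ℝ → ℂ} (hF : HasCompactSupport F) :
    ∃ R : ℝ, 0 ≤ R ∧ ∀ x, R < |x| → F x = 0 := by
  obtain ⟨R, hR⟩ := hF.isCompact.isBounded.exists_norm_le
  refine ⟨max R 0, le_max_right _ _, fun x hx => ?_⟩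
  by_contra h
  have h1 : x ∈ tsupport F := subset_tsupport F h
  have h2 := hR x h1
  rw [norm_eq_abs] at h2
  have := le_max_left R 0
  linarith

lemma finite_support_shift {F : ℝ → ℂ} (hF : HasCompactSupport F) (x : ℝ) :
    (Function.support fun l : ℤ => F (x + l)).Finite := by
  obtain ⟨R, hR0, hR⟩ := exists_support_bound hF
  refine (Set.finite_Icc (-⌈R + |x|⌉) ⌈R + |x|⌉).subset fun l hl => ?_
  rw [Function.mem_support] at hl
  have h1 : |x + l| ≤ R := by
    by_contra h
    exact hl (hR _ (not_le.1 h))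
  have h2 : |(l : ℝ)| ≤ R + |x| := by
    calc |(l:ℝ)| = |(x + l) - x| := by ring_nf
      _ ≤ |x + l| + |x| := abs_sub _ _
      _ ≤ R + |x| := by linarith
  rw [abs_le] at h2
  have h3 : R + |x| ≤ (⌈R + |x|⌉ : ℝ) := Int.le_ceil _
  constructor
  · have : (-(⌈R + |x|⌉ : ℝ)) ≤ l := by linarith
    exact_mod_cast this
  · have : (l : ℝ) ≤ ⌈R + |x|⌉ := by linarith
    exact_mod_cast this

lemma summable_shift {F : ℝ → ℂ} (hF : HasCompactSupport F) (x : ℝ) :
    Summable fun l : ℤ => F (x + l) :=
  summable_of_hasFiniteSupport (finite_support_shift hF x)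

lemma summable_norm_restrict (f : C(ℝ, ℂ)) (hF : HasCompactSupport f) (K : Compacts ℝ) :
    Summable fun n : ℤ => ‖(f.comp (ContinuousMap.addRight (n : ℝ))).restrict K‖ := by
  obtain ⟨R, hR0, hR⟩ := exists_support_bound hF
  obtain ⟨S, hS⟩ := K.isCompact.isBounded.exists_norm_le
  apply summable_of_hasFiniteSupport
  refine (Set.finite_Icc (-⌈R + S⌉) ⌈R + S⌉).subset fun l hl => ?_
  rw [Function.mem_support] at hl
  have hex : ∃ x ∈ K, f (x + l) ≠ 0 := by
    by_contra hc
    push Not at hc
    apply hl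
    rw [norm_eq_zero]
    ext ⟨x, hx⟩
    exact hc x hx
  obtain ⟨x, hxK, hx⟩ := hex
  have hS' : |x| ≤ S := hS x hxK
  have h1 : |x + l| ≤ R := by
    by_contra h
    exact hx (hR _ (not_le.1 h))
  have h2 : |(l : ℝ)| ≤ R + S := by
    calc |(l:ℝ)| = |(x + l) - x| := by ring_nf
      _ ≤ |x + l| + |x| := abs_sub _ _
      _ ≤ R + S := by linarith
  rw [abs_le] at h2
  have h3 : R + S ≤ (⌈R + S⌉ : ℝ) := Int.le_ceil _
  constructor
  · have : (-(⌈R + S⌉ : ℝ)) ≤ l := by linarith
    exact_mod_cast this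
  · have : (l : ℝ) ≤ ⌈R + S⌉ := by linarith
    exact_mod_cast this

/-- the periodization as a continuous map -/
def perC (f : C(ℝ, ℂ)) : C(ℝ, ℂ) := ∑' n : ℤ, f.comp (ContinuousMap.addRight (n • (1 : ℝ)))

lemma perC_apply (f : C(ℝ, ℂ)) (hF : HasCompactSupport f) (x : ℝ) : perC f x = per f x := by
  unfold perC per
  have hs : Summable fun n : ℤ => f.comp (ContinuousMap.addRight (n : ℝ)) :=
    ContinuousMap.summable_of_locally_summable_norm (summable_norm_restrict f hF)
  simp only [zsmul_one]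
  rw [← ContinuousMap.tsum_apply hs]
  rfl

lemma continuous_per {F : ℝ → ℂ} (hc : Continuous F) (hF : HasCompactSupport F) :
    Continuous (per F) := by
  have : per F = perC ⟨F, hc⟩ := by
    funext x; rw [perC_apply _ hF]; rfl
  rw [this]
  exact map_continuous _

lemma per_periodic (F : ℝ → ℂ) : Function.Periodic (per F) 1 := by
  intro x
  unfold per
  rw [← (Equiv.addRight (1 : ℤ)).tsum_eq (fun l : ℤ => F (x + l))]
  refine tsum_congr fun l => ?_
  simp only [Equiv.coe_addRight, Int.cast_add, Int.cast_one]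
  congr 1; ring

/-- **Parseval** for the periodization. -/
lemma parseval_per {F : ℝ → ℂ} (hc : Continuous F) (hF : HasCompactSupport F) :
    HasSum (fun n : ℤ => ‖𝓕 F n‖ ^ 2) (∫ x in (0:ℝ)..1, ‖per F x‖ ^ 2) := by
  set f : C(ℝ, ℂ) := ⟨F, hc⟩ with hf
  have hF' : HasCompactSupport f := hF
  set G : C(UnitAddCircle, ℂ) :=
    ⟨(f.periodic_tsum_comp_add_zsmul 1).lift, continuous_coinduced_dom.mpr (map_continuous _)⟩
    with hG
  have h1 := hasSum_sq_fourierCoeff (ContinuousMap.toLp (E := ℂ) 2 AddCircle.haarAddCircle ℂ G)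
  have h2 : ∀ n : ℤ, fourierCoeff (ContinuousMap.toLp (E := ℂ) 2 AddCircle.haarAddCircle ℂ G) n
      = 𝓕 F n := by
    intro n
    rw [fourierCoeff_toLp]
    exact Real.fourierCoeff_tsum_comp_add (summable_norm_restrict f hF') n
  simp only [h2] at h1
  convert h1 using 1
  have h3 : ∫ t : UnitAddCircle, ‖(ContinuousMap.toLp (E := ℂ) 2 AddCircle.haarAddCircle ℂ G) t‖ ^ 2
      ∂AddCircle.haarAddCircle = ∫ t : UnitAddCircle, ‖G t‖ ^ 2 ∂AddCircle.haarAddCircle := by
    apply integral_congr_ae
    filter_upwards [ContinuousMap.coeFn_toLp (p := 2) (𝕜 := ℂ) AddCircle.haarAddCircle G] with t ht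
    rw [ht]
  rw [h3, AddCircle.integral_haarAddCircle]
  have h4 := AddCircle.intervalIntegral_preimage (1 : ℝ) 0 (fun t : UnitAddCircle => ‖G t‖ ^ 2)
  rw [zero_add] at h4
  rw [← h4]
  simp only [inv_one, one_smul]
  refine intervalIntegral.integral_congr fun x _ => ?_
  have : G (x : UnitAddCircle) = per F x := by
    have := perC_apply f hF' x
    rw [hf] at this
    exact this
  simp only [this]

/-- splitting of the periodization into even and odd shifts -/
lemma per_two_mul {F : ℝ → ℂ} (hF : HasCompactSupport F) (x : ℝ) :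
    per F (2 * x) = per (fun y => F (2 * y)) x + per (fun y => F (2 * y)) (x + 1/2) := by
  unfold per
  have hs := summable_shift hF (2 * x)
  have h1 : Function.Injective (fun k : ℤ => 2 * k) := fun a b h => by simpa using h
  have h2 : Function.Injective (fun k : ℤ => 2 * k + 1) := fun a b h => by simpa using h
  have hcompl : IsCompl (Set.range fun k : ℤ => 2 * k) (Set.range fun k : ℤ => 2 * k + 1) := by
    constructor
    · rw [Set.disjoint_iff]
      rintro y ⟨⟨a, ha⟩, ⟨b, hb⟩⟩
      simp only at ha hb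
      omega
    · rw [codisjoint_iff_le_sup]
      intro y _
      rcases Int.even_or_odd' y with ⟨k, hk | hk⟩
      · left; exact ⟨k, hk.symm⟩
      · right; exact ⟨k, hk.symm⟩
  set f : ℤ → ℂ := fun l : ℤ => F (2 * x + (l : ℝ)) with hf
  have e1 : HasSum (f ∘ fun k : ℤ => 2 * k) (∑' k : ℤ, f (2 * k)) := (hs.comp_injective h1).hasSum
  have e2 : HasSum (f ∘ fun k : ℤ => 2 * k + 1) (∑' k : ℤ, f (2 * k + 1)) :=
    (hs.comp_injective h2).hasSum
  have e3 := (Function.Injective.hasSum_range_iff h1 (f := f)).2 e1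
  have e4 := (Function.Injective.hasSum_range_iff h2 (f := f)).2 e2
  have := HasSum.add_isCompl (f := f) hcompl e3 e4
  rw [this.tsum_eq]
  congr 1
  · refine tsum_congr fun k => ?_
    rw [hf]
    simp only
    congr 1; push_cast; ring
  · refine tsum_congr fun k => ?_
    rw [hf]
    simp only
    congr 1; push_cast; ring

end

end Pool.Agent.MP27eeb4
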