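import Mathlib
import Pool.Agent.MP_27eeb4_an.Norm
import Pool.Agent.MP_27eeb4_an.Periodize

/-!
The telescoping identity between scales and the resulting Parseval identity for nice functions.
-/

open Real Set Filter Topology MeasureTheory FourierTransform ComplexConjugate

namespace Pool.Agent.MP27eeb4

noncomputable section

/-- low-pass product -/
def FH (g : ℝ → ℂ) (s : ℝ) (y : ℝ) : ℂ := g (s * y) * (Phi y : ℂ)

/-- wavelet product -/
def FG (g : ℝ → ℂ) (s : ℝ) (y : ℝ) : ℂ := g (s * y) * conj (psiHat y)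

lemma continuous_psiHat : Continuous psiHat := by
  unfold psiHat
  refine Continuous.mul ?_ ?_
  · exact Complex.continuous_exp.comp (by fun_prop)
  · exact Complex.continuous_ofReal.comp ((continuous_m.comp (by fun_prop)).mul
      (continuous_Phi.comp (by fun_prop)))

section

variable {g : ℝ → ℂ} (hgc : Continuous g) (hgs : HasCompactSupport g)

include hgc in
lemma continuous_FH (s : ℝ) : Continuous (FH g s) :=
  (hgc.comp (continuous_const.mul continuous_id)).mul (Complex.continuous_ofReal.comp continuous_Phi)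

include hgc in
lemma continuous_FG (s : ℝ) : Continuous (FG g s) :=
  (hgc.comp (continuous_const.mul continuous_id)).mul (Complex.continuous_conj.comp continuous_psiHat)

include hgs in
lemma supp_scale {s : ℝ} (hs : s ≠ 0) : HasCompactSupport fun y => g (s * y) :=
  hgs.comp_homeomorph (Homeomorph.mulLeft₀ s hs)

include hgs in
lemma supp_FH {s : ℝ} (hs : s ≠ 0) : HasCompactSupport (FH g s) :=
  (supp_scale hgs hs).mul_right

include hgs in
lemma supp_FG {s : ℝ} (hs : s ≠ 0) : HasCompactSupport (FG g s) :=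
  (supp_scale hgs hs).mul_right

lemma per_mul_periodic {c F : ℝ → ℂ} (hc : ∀ (x : ℝ) (l : ℤ), c (x + l) = c x) (x : ℝ) :
    per (fun y => c y * F y) x = c x * per F x := by
  unfold per
  rw [← tsum_mul_left]
  exact tsum_congr fun l => by simp only [hc]

lemma exp_periodic (x : ℝ) (l : ℤ) :
    Complex.exp ((2 * π * (x + l : ℝ) : ℝ) * Complex.I) = Complex.exp ((2 * π * x : ℝ) * Complex.I) := by
  rw [Complex.exp_eq_exp_iff_exists_int]
  exact ⟨l, by push_cast; ring⟩

lemma exp_half (x : ℝ) :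
    Complex.exp ((2 * π * (x + 1/2) : ℝ) * Complex.I) = - Complex.exp ((2 * π * x : ℝ) * Complex.I) := by
  have : ((2 * π * (x + 1/2) : ℝ) : ℂ) * Complex.I = (2 * π * x : ℝ) * Complex.I + π * Complex.I := by
    push_cast; ring
  rw [this, Complex.exp_add, Complex.exp_pi_mul_I]
  ring

lemma conj_psiHat_two_mul (y : ℝ) : conj (psiHat (2 * y))
    = Complex.exp ((2 * π * y : ℝ) * Complex.I) * (m (y + 1/2) : ℂ) * (Phi y : ℂ) := by
  unfold psiHat
  rw [map_mul, ← Complex.exp_conj, Complex.conj_ofReal]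
  have h1 : (2 * y) / 2 = y := by ring
  rw [h1]
  have h2 : conj (-((π:ℂ) * ((2 * y : ℝ) : ℂ)) * Complex.I) = ((2 * π * y : ℝ) : ℂ) * Complex.I := by
    rw [map_mul, map_neg, map_mul, Complex.conj_ofReal, Complex.conj_ofReal, Complex.conj_I]
    push_cast; ring
  rw [h2]
  push_cast
  ring

lemma per_FH_two (s x : ℝ) : per (fun y => FH g s (2 * y)) x = (m x : ℂ) * per (FH g (2 * s)) x := by
  have : (fun y => FH g s (2 * y)) = fun y => (m y : ℂ) * FH g (2 * s) y := by
    funext y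
    unfold FH
    rw [Phi_two_mul]
    push_cast
    rw [show s * (2 * y) = 2 * s * y by ring]
    ring
  rw [this]
  exact per_mul_periodic (c := fun y => (m y : ℂ)) (fun x l => by simp only [m_add_int]) x

lemma per_FG_two (s x : ℝ) : per (fun y => FG g s (2 * y)) x
    = (Complex.exp ((2 * π * x : ℝ) * Complex.I) * (m (x + 1/2) : ℂ)) * per (FH g (2 * s)) x := by
  have : (fun y => FG g s (2 * y)) = fun y =>
      (Complex.exp ((2 * π * y : ℝ) * Complex.I) * (m (y + 1/2) : ℂ)) * FH g (2 * s) y := by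
    funext y
    unfold FG FH
    rw [conj_psiHat_two_mul, show s * (2 * y) = 2 * s * y by ring]
    ring
  rw [this]
  exact per_mul_periodic
    (c := fun y => Complex.exp ((2 * π * y : ℝ) * Complex.I) * (m (y + 1/2) : ℂ))
    (fun x l => by
      have h1 : x + (l:ℝ) + 1/2 = (x + 1/2) + (l:ℝ) := by ring
      rw [exp_periodic, h1, m_add_int]) x

lemma norm_rot (a b : ℝ) (U V : ℂ) :
    ‖(a : ℂ) * U + (b : ℂ) * V‖ ^ 2 + ‖(b : ℂ) * U - (a : ℂ) * V‖ ^ 2
      = (a ^ 2 + b ^ 2) * (‖U‖ ^ 2 + ‖V‖ ^ 2) := by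
  simp only [Complex.sq_norm, Complex.normSq_apply, Complex.add_re, Complex.add_im, Complex.sub_re,
    Complex.sub_im, Complex.mul_re, Complex.mul_im, Complex.ofReal_re, Complex.ofReal_im]
  ring

include hgs in
lemma tele_pointwise {s : ℝ} (hs : s ≠ 0) (x : ℝ) :
    ‖per (FH g s) (2 * x)‖ ^ 2 + ‖per (FG g s) (2 * x)‖ ^ 2
      = ‖per (FH g (2 * s)) x‖ ^ 2 + ‖per (FH g (2 * s)) (x + 1/2)‖ ^ 2 := by
  rw [per_two_mul (supp_FH hgs hs), per_two_mul (supp_FG hgs hs), per_FH_two, per_FH_two,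
    per_FG_two, per_FG_two, exp_half]
  have h1 : m (x + 1/2 + 1/2) = m x := by
    rw [show x + 1/2 + 1/2 = x + 1 by ring, m_add_one]
  rw [h1]
  set U := per (FH g (2 * s)) x
  set V := per (FH g (2 * s)) (x + 1/2)
  have h2 : Complex.exp ((2 * π * x : ℝ) * Complex.I) * (m (x + 1/2) : ℂ) * U
      + -Complex.exp ((2 * π * x : ℝ) * Complex.I) * (m x : ℂ) * V
      = Complex.exp ((2 * π * x : ℝ) * Complex.I) * ((m (x + 1/2) : ℂ) * U - (m x : ℂ) * V) := by
    ring
  rw [h2, norm_mul, Complex.norm_exp_ofReal_mul_I, one_mul, norm_rot, m_sq_add, one_mul]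

lemma periodic_int_two {h : ℝ → ℝ} (hc : Continuous h) (hp : Function.Periodic h 1) :
    ∫ x in (0:ℝ)..1, h (2 * x) = ∫ x in (0:ℝ)..1, h x := by
  rw [intervalIntegral.integral_comp_mul_left h (by norm_num : (2:ℝ) ≠ 0), mul_zero, mul_one]
  rw [← intervalIntegral.integral_add_adjacent_intervals (hc.intervalIntegrable 0 1)
    (hc.intervalIntegrable 1 2)]
  have := hp.intervalIntegral_add_eq 1 0
  rw [show (1:ℝ) + 1 = 2 by norm_num, zero_add] at this
  rw [this, smul_eq_mul]
  ring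

lemma periodic_int_half {h : ℝ → ℝ} (hp : Function.Periodic h 1) :
    ∫ x in (0:ℝ)..1, h (x + 1/2) = ∫ x in (0:ℝ)..1, h x := by
  rw [intervalIntegral.integral_comp_add_right h]
  have := hp.intervalIntegral_add_eq (1/2) 0
  rw [zero_add] at this
  rw [← this]
  congr 1 <;> ring

/-- energy of the low-pass part -/
def AA (g : ℝ → ℂ) (s : ℝ) : ℝ := s * ∫ x in (0:ℝ)..1, ‖per (FH g s) x‖ ^ 2

/-- energy of the wavelet part -/
def BB (g : ℝ → ℂ) (s : ℝ) : ℝ := s * ∫ x in (0:ℝ)..1, ‖per (FG g s) x‖ ^ 2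

include hgc hgs in
lemma tele {s : ℝ} (hs : 0 < s) : AA g s + BB g s = AA g (2 * s) := by
  have c1 : Continuous fun x => ‖per (FH g s) x‖ ^ 2 :=
    (continuous_per (continuous_FH hgc s) (supp_FH hgs hs.ne')).norm.pow 2
  have c2 : Continuous fun x => ‖per (FG g s) x‖ ^ 2 :=
    (continuous_per (continuous_FG hgc s) (supp_FG hgs hs.ne')).norm.pow 2
  have c3 : Continuous fun x => ‖per (FH g (2 * s)) x‖ ^ 2 :=
    (continuous_per (continuous_FH hgc _) (supp_FH hgs (by positivity))).norm.pow 2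
  have p1 : Function.Periodic (fun x => ‖per (FH g s) x‖ ^ 2) 1 := fun x => by
    simp only [per_periodic _ x]
  have p2 : Function.Periodic (fun x => ‖per (FG g s) x‖ ^ 2) 1 := fun x => by
    simp only [per_periodic _ x]
  have p3 : Function.Periodic (fun x => ‖per (FH g (2 * s)) x‖ ^ 2) 1 := fun x => by
    simp only [per_periodic _ x]
  unfold AA BB
  rw [← periodic_int_two c1 p1, ← periodic_int_two c2 p2, ← mul_add,
    ← intervalIntegral.integral_add]
  · have : ∫ x in (0:ℝ)..1, (‖per (FH g s) (2 * x)‖ ^ 2 + ‖per (FG g s) (2 * x)‖ ^ 2)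
        = 2 * ∫ x in (0:ℝ)..1, ‖per (FH g (2 * s)) x‖ ^ 2 := by
      simp only [tele_pointwise hgs hs.ne']
      have c4 : Continuous fun x => ‖per (FH g (2 * s)) (x + 1/2)‖ ^ 2 :=
        c3.comp (continuous_id.add continuous_const)
      rw [intervalIntegral.integral_add (c3.intervalIntegrable _ _) (c4.intervalIntegrable _ _)]
      rw [periodic_int_half p3]
      ring
    rw [this]
    ring
  · exact (c1.comp (continuous_const.mul continuous_id)).intervalIntegrable _ _
  · exact (c2.comp (continuous_const.mul continuous_id)).intervalIntegrable _ _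

lemma AA_nonneg {s : ℝ} (hs : 0 ≤ s) : 0 ≤ AA g s :=
  mul_nonneg hs (intervalIntegral.integral_nonneg (by norm_num) fun _ _ => by positivity)

lemma BB_nonneg {s : ℝ} (hs : 0 ≤ s) : 0 ≤ BB g s :=
  mul_nonneg hs (intervalIntegral.integral_nonneg (by norm_num) fun _ _ => by positivity)

/-- high frequency limit -/
lemma AA_high {R : ℝ} (hR0 : 0 < R) (hR : ∀ x, R < |x| → g x = 0) {s : ℝ} (hs : 5 * R ≤ s) :
    AA g s = ∫ x, ‖g x‖ ^ 2 := by
  have hspos : 0 < s := by linarith
  have p1 : Function.Periodic (fun x => ‖per (FH g s) x‖ ^ 2) 1 := fun x => by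
    simp only [per_periodic _ x]
  have hval : ∀ x ∈ Icc (-1/2 : ℝ) (1/2), per (FH g s) x = g (s * x) := by
    intro x hx
    unfold per
    rw [tsum_eq_single 0]
    · simp only [Int.cast_zero, add_zero, FH]
      by_cases h : R < |s * x|
      · rw [hR _ h, zero_mul]
      · rw [Phi_eq_one, Complex.ofReal_one, mul_one]
        push Not at h
        rw [abs_mul, abs_of_pos hspos] at h
        by_contra hc
        push Not at hc
        nlinarith
    · intro l hl
      unfold FH
      rw [hR, zero_mul]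
      have h1 : (1:ℝ) ≤ |(l : ℝ)| := by
        have : (1:ℤ) ≤ |l| := Int.one_le_abs hl
        exact_mod_cast this
      have h2 : |x| ≤ 1/2 := by rw [abs_le]; exact ⟨by linarith [hx.1], hx.2⟩
      have h3 : 1/2 ≤ |x + l| := by
        have : |(l:ℝ)| ≤ |x + l| + |x| := by
          calc |(l:ℝ)| = |(x + l) - x| := by ring_nf
            _ ≤ |x + l| + |x| := abs_sub _ _
        linarith
      rw [abs_mul, abs_of_pos hspos]
      nlinarith
  unfold AA
  have e1 := p1.intervalIntegral_add_eq 0 (-1/2)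
  rw [zero_add, show (-1/2 : ℝ) + 1 = 1/2 by norm_num] at e1
  rw [e1]
  have e2 : ∫ x in (-1/2:ℝ)..(1/2), ‖per (FH g s) x‖ ^ 2 = ∫ x in (-1/2:ℝ)..(1/2), ‖g (s * x)‖ ^ 2 := by
    refine intervalIntegral.integral_congr fun x hx => ?_
    rw [uIcc_of_le (by norm_num)] at hx
    simp only [hval x hx]
  rw [e2, intervalIntegral.integral_comp_mul_left (fun x => ‖g x‖ ^ 2) hspos.ne', smul_eq_mul,
    ← mul_assoc, mul_inv_cancel₀ hspos.ne', one_mul]
  apply intervalIntegral.integral_eq_integral_of_support_subset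
  intro x hx
  rw [Function.mem_support] at hx
  have h1 : |x| ≤ R := by
    by_contra hc
    apply hx
    rw [hR x (not_le.1 hc)]
    simp
  rw [abs_le] at h1
  constructor
  · linarith [h1.1]
  · linarith [h1.2]

/-- low frequency estimate -/
lemma AA_low {R r M : ℝ} (hR0 : 0 < R) (hR : ∀ x, R < |x| → g x = 0) (hr0 : 0 < r)
    (hr : ∀ x, |x| < r → g x = 0) (hM : ∀ x, ‖g x‖ ≤ M) :
    ∃ C : ℝ, ∀ s, 0 < s → s ≤ 1 → AA g s ≤ C * s := by
  obtain ⟨B, hB⟩ := Phi_decay 2
  have hB0 : 0 ≤ B := le_trans (mul_nonneg (by positivity) (Phi_nonneg 0)) (hB 0)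
  have hM0 : 0 ≤ M := (norm_nonneg _).trans (hM 0)
  refine ⟨((2 * R + 5) * (M * (B / r ^ 2))) ^ 2, fun s hs hs1 => ?_⟩
  have hF : ∀ y, ‖FH g s y‖ ≤ M * (B * s ^ 2 / r ^ 2) := by
    intro y
    unfold FH
    by_cases h : |s * y| < r
    · rw [hr _ h, zero_mul, norm_zero]; positivity
    · rw [norm_mul, Complex.norm_real, norm_eq_abs, abs_of_nonneg (Phi_nonneg _)]
      push Not at h
      rw [abs_mul, abs_of_pos hs] at h
      apply mul_le_mul (hM _) _ (Phi_nonneg _) hM0
      rw [le_div_iff₀ (by positivity)]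
      have h1 := hB y
      have h2 : r ^ 2 ≤ (s * |y|) ^ 2 := pow_le_pow_left₀ hr0.le h 2
      calc Phi y * r ^ 2 ≤ Phi y * (s * |y|) ^ 2 := mul_le_mul_of_nonneg_left h2 (Phi_nonneg _)
        _ = (|y| ^ 2 * Phi y) * s ^ 2 := by ring
        _ ≤ B * s ^ 2 := mul_le_mul_of_nonneg_right h1 (by positivity)
  have hper : ∀ x ∈ Icc (0:ℝ) 1, ‖per (FH g s) x‖ ≤ (2 * R + 5) * (M * (B / r ^ 2)) * s := by
    intro x hx
    set L : ℤ := ⌈R / s + 1⌉ with hL
    have hL1 : R / s + 1 ≤ L := Int.le_ceil _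
    have hL2 : (L : ℝ) < R / s + 1 + 1 := Int.ceil_lt_add_one _
    have hL0 : 0 ≤ L := by
      have : (0:ℝ) ≤ L := le_trans (by positivity) hL1
      exact_mod_cast this
    have hzero : ∀ l ∉ Finset.Icc (-L) L, FH g s (x + l) = 0 := by
      intro l hl
      unfold FH
      rw [hR, zero_mul]
      rw [Finset.mem_Icc, not_and_or, not_le, not_le] at hl
      have h1 : (L : ℝ) + 1 ≤ |(l:ℝ)| := by
        have : L + 1 ≤ |l| := by
          rcases hl with h | h
          · rw [abs_of_neg (by omega)]; omega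
          · rw [abs_of_pos (by omega)]; omega
        exact_mod_cast this
      have h2 : |x| ≤ 1 := by rw [abs_le]; exact ⟨by linarith [hx.1], hx.2⟩
      have h3 : |(l:ℝ)| ≤ |x + l| + |x| := by
        calc |(l:ℝ)| = |(x + l) - x| := by ring_nf
          _ ≤ |x + l| + |x| := abs_sub _ _
      rw [abs_mul, abs_of_pos hs]
      have h4 : R / s < |x + l| := by linarith
      rw [div_lt_iff₀ hs] at h4
      linarith
    unfold per
    rw [tsum_eq_sum hzero]
    calc ‖∑ l ∈ Finset.Icc (-L) L, FH g s (x + l)‖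
        ≤ ∑ l ∈ Finset.Icc (-L) L, ‖FH g s (x + l)‖ := norm_sum_le _ _
      _ ≤ ∑ l ∈ Finset.Icc (-L) L, M * (B * s ^ 2 / r ^ 2) := Finset.sum_le_sum fun l _ => hF _
      _ = (2 * L + 1 : ℝ) * (M * (B * s ^ 2 / r ^ 2)) := by
          rw [Finset.sum_const, Int.card_Icc, nsmul_eq_mul]
          congr 1
          have : ((L + 1 - -L).toNat : ℤ) = 2 * L + 1 := by
            rw [Int.toNat_of_nonneg (by omega)]; ring
          have h5 : ((L + 1 - -L).toNat : ℝ) = ((2 * L + 1 : ℤ) : ℝ) := by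
            rw [← this, Int.cast_natCast]
          rw [h5]; push_cast; ring
      _ ≤ (2 * R / s + 5) * (M * (B * s ^ 2 / r ^ 2)) := by
          apply mul_le_mul_of_nonneg_right _ (by positivity)
          have : 2 * R / s = 2 * (R / s) := by ring
          linarith
      _ = (2 * R + 5 * s) * (M * (B / r ^ 2)) * s := by field_simp
      _ ≤ (2 * R + 5) * (M * (B / r ^ 2)) * s := by
          apply mul_le_mul_of_nonneg_right _ hs.le
          apply mul_le_mul_of_nonneg_right _ (by positivity)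
          linarith
  have hC0 : 0 ≤ (2 * R + 5) * (M * (B / r ^ 2)) := by positivity
  have hint : ∫ x in (0:ℝ)..1, ‖per (FH g s) x‖ ^ 2
      ≤ ((2 * R + 5) * (M * (B / r ^ 2)) * s) ^ 2 := by
    have h1 : ‖∫ x in (0:ℝ)..1, ‖per (FH g s) x‖ ^ 2‖
        ≤ ((2 * R + 5) * (M * (B / r ^ 2)) * s) ^ 2 * |1 - 0| := by
      apply intervalIntegral.norm_integral_le_of_norm_le_const
      intro x hx
      rw [uIoc_of_le zero_le_one] at hx
      rw [norm_eq_abs, abs_of_nonneg (by positivity)]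
      exact pow_le_pow_left₀ (norm_nonneg _) (hper x ⟨hx.1.le, hx.2⟩) 2
    rw [sub_zero, abs_one, mul_one] at h1
    exact (le_abs_self _).trans h1
  unfold AA
  calc s * ∫ x in (0:ℝ)..1, ‖per (FH g s) x‖ ^ 2
      ≤ s * ((2 * R + 5) * (M * (B / r ^ 2)) * s) ^ 2 := mul_le_mul_of_nonneg_left hint hs.le
    _ = ((2 * R + 5) * (M * (B / r ^ 2))) ^ 2 * (s * (s * s)) := by ring
    _ ≤ ((2 * R + 5) * (M * (B / r ^ 2))) ^ 2 * (s * (1 * 1)) := by gcongr
    _ = _ := by ring

end

end

end Pool.Agent.MP27eeb4
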