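import Mathlib
import Pool.Agent.MP_27eeb4_an.Frame

/-!
The Parseval identity for nice functions on the Fourier side.
-/

open Real Set Filter Topology MeasureTheory FourierTransform ComplexConjugate

namespace Pool.Agent.MP27eeb4

noncomputable section

lemma hasSum_BB {g : ℝ → ℂ} (hgc : Continuous g) (hgs : HasCompactSupport g)
    (h0 : ∃ r : ℝ, 0 < r ∧ ∀ x, |x| < r → g x = 0) :
    HasSum (fun j : ℤ => BB g (2 ^ j)) (∫ x, ‖g x‖ ^ 2) := by
  obtain ⟨R, hR0, hR⟩ := exists_support_bound hgs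
  obtain ⟨r, hr0, hr⟩ := h0
  obtain ⟨M, hM⟩ := hgs.exists_bound_of_continuous hgc
  set R' := R + 1 with hR'
  have hR'0 : 0 < R' := by positivity
  have hR'' : ∀ x, R' < |x| → g x = 0 := fun x hx => hR x (by linarith)
  set E := ∫ x, ‖g x‖ ^ 2 with hE
  have step : ∀ j : ℤ, BB g (2 ^ j) = AA g (2 ^ (j + 1)) - AA g (2 ^ j) := by
    intro j
    have h := tele hgc hgs (s := (2:ℝ) ^ j) (by positivity)
    rw [zpow_add_one₀ (by norm_num), mul_comm ((2:ℝ) ^ j) 2, ← h]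
    ring
  have hnn : ∀ j : ℤ, 0 ≤ BB g (2 ^ j) := fun j => BB_nonneg (by positivity)
  have h1 : HasSum (fun n : ℕ => BB g (2 ^ (n : ℤ))) (E - AA g 1) := by
    rw [hasSum_iff_tendsto_nat_of_nonneg (fun n => hnn n)]
    have hs : ∀ n : ℕ, ∑ i ∈ Finset.range n, BB g (2 ^ (i : ℤ)) = AA g (2 ^ (n : ℤ)) - AA g 1 := by
      intro n
      have := Finset.sum_range_sub (fun i : ℕ => AA g (2 ^ (i : ℤ))) n
      simp only [Nat.cast_add, Nat.cast_one, Nat.cast_zero, zpow_zero] at this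
      rw [← this]
      exact Finset.sum_congr rfl fun i _ => step i
    simp only [hs]
    apply tendsto_const_nhds.congr'
    obtain ⟨N, hN⟩ := pow_unbounded_of_one_lt (5 * R') (show (1:ℝ) < 2 by norm_num)
    filter_upwards [eventually_ge_atTop N] with n hn
    have hA : AA g (2 ^ (n : ℤ)) = E := by
      refine AA_high hR'0 hR'' ?_
      rw [zpow_natCast]
      exact hN.le.trans (pow_le_pow_right₀ (by norm_num) hn)
    rw [hA]
  have h2 : HasSum (fun n : ℕ => BB g (2 ^ (-((n : ℤ) + 1)))) (AA g 1) := by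
    rw [hasSum_iff_tendsto_nat_of_nonneg (fun n => hnn _)]
    have hs : ∀ n : ℕ, ∑ i ∈ Finset.range n, BB g (2 ^ (-((i : ℤ) + 1)))
        = AA g 1 - AA g (2 ^ (-(n : ℤ))) := by
      intro n
      have := Finset.sum_range_sub' (fun i : ℕ => AA g (2 ^ (-(i : ℤ)))) n
      simp only [Nat.cast_add, Nat.cast_one, Nat.cast_zero, neg_zero, zpow_zero] at this
      rw [← this]
      refine Finset.sum_congr rfl fun i _ => ?_
      rw [step]
      congr 3
      ring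
    simp only [hs]
    obtain ⟨C, hC⟩ := AA_low hR'0 hR'' hr0 hr hM
    have hlim : Tendsto (fun n : ℕ => AA g (2 ^ (-(n : ℤ)))) atTop (𝓝 0) := by
      have hz : Tendsto (fun n : ℕ => C * (2:ℝ) ^ (-(n : ℤ))) atTop (𝓝 0) := by
        have : Tendsto (fun n : ℕ => ((1:ℝ)/2) ^ n) atTop (𝓝 0) :=
          tendsto_pow_atTop_nhds_zero_of_lt_one (by norm_num) (by norm_num)
        have h3 := this.const_mul C
        rw [mul_zero] at h3
        refine h3.congr fun n => ?_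
        rw [zpow_neg, zpow_natCast, one_div, inv_pow]
      refine squeeze_zero (fun n => AA_nonneg (by positivity)) (fun n => hC _ (by positivity) ?_) hz
      rw [zpow_neg, zpow_natCast]
      exact inv_le_one_of_one_le₀ (one_le_pow₀ (by norm_num))
    simpa using hlim.const_sub (AA g 1)
  have := HasSum.of_nat_of_neg_add_one (f := fun j : ℤ => BB g (2 ^ j)) h1 h2
  convert this using 1
  ring

/-- the wavelet system on the Fourier side, `s = 2^j` -/
def ee2 (s : ℝ) (k : ℤ) (ξ : ℝ) : ℂ :=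
  ((√s)⁻¹ : ℝ) * Complex.exp ((-(2 * π * k * (ξ / s)) : ℝ) * Complex.I) * psiHat (ξ / s)

lemma coeff_eq {g : ℝ → ℂ} {s : ℝ} (hs : 0 < s) (k : ℤ) :
    ∫ ξ, conj (ee2 s k ξ) * g ξ = (√s : ℝ) * 𝓕 (FG g s) ((-k : ℤ) : ℝ) := by
  rw [Real.fourier_real_eq_integral_exp_smul]
  set h : ℝ → ℂ := fun y => ((√s)⁻¹ : ℝ) * Complex.exp ((2 * π * k * y : ℝ) * Complex.I)
    * conj (psiHat y) * g (s * y) with hh
  have h1 : ∀ ξ, conj (ee2 s k ξ) * g ξ = h (s⁻¹ * ξ) := by
    intro ξ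
    rw [hh]
    unfold ee2
    simp only [map_mul, Complex.conj_ofReal, ← Complex.exp_conj, Complex.conj_I]
    have e1 : s * (s⁻¹ * ξ) = ξ := by field_simp
    have e2 : ξ / s = s⁻¹ * ξ := by field_simp
    rw [e1, e2]
    congr 3
    congr 1
    push_cast
    ring
  simp only [h1]
  rw [Measure.integral_comp_mul_left h s⁻¹, inv_inv, abs_of_pos hs, ← integral_smul,
    ← integral_const_mul]
  congr 1
  funext y
  rw [hh]
  simp only [FG, smul_eq_mul, Complex.real_smul]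
  have e3 : (s : ℂ) * ((√s)⁻¹ : ℝ) = (√s : ℝ) := by
    rw [← Complex.ofReal_mul]
    congr 1
    have := Real.mul_self_sqrt hs.le
    have h0 : √s ≠ 0 := (Real.sqrt_pos.2 hs).ne'
    field_simp
    rw [sq]; exact this.symm
  have e4 : Complex.exp ((2 * π * k * y : ℝ) * Complex.I)
      = Complex.exp (((-2 * π * y * ((-k : ℤ) : ℝ) : ℝ) : ℂ) * Complex.I) := by
    congr 2
    push_cast; ring
  rw [← e4, ← e3]
  ring

lemma hasSum_coeff {g : ℝ → ℂ} (hgc : Continuous g) (hgs : HasCompactSupport g) {s : ℝ}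
    (hs : 0 < s) : HasSum (fun k : ℤ => ‖∫ ξ, conj (ee2 s k ξ) * g ξ‖ ^ 2) (BB g s) := by
  have h1 := parseval_per (continuous_FG hgc s) (supp_FG hgs hs.ne')
  have h2 : HasSum (fun n : ℤ => ‖𝓕 (FG g s) ((-n : ℤ) : ℝ)‖ ^ 2)
      (∫ x in (0:ℝ)..1, ‖per (FG g s) x‖ ^ 2) := by
    have := (Equiv.neg ℤ).hasSum_iff.2 h1
    exact this
  have h3 := h2.mul_left s
  have hfun : (fun k : ℤ => ‖∫ ξ, conj (ee2 s k ξ) * g ξ‖ ^ 2)
      = fun k : ℤ => s * ‖𝓕 (FG g s) ((-k : ℤ) : ℝ)‖ ^ 2 := by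
    funext k
    rw [coeff_eq hs, norm_mul, mul_pow, Complex.norm_real, norm_eq_abs, sq_abs, Real.sq_sqrt hs.le]
  rw [hfun]
  exact h3

/-- **Parseval identity** on the Fourier side for continuous compactly supported functions
vanishing near the origin. -/
lemma hasSum_all {g : ℝ → ℂ} (hgc : Continuous g) (hgs : HasCompactSupport g)
    (h0 : ∃ r : ℝ, 0 < r ∧ ∀ x, |x| < r → g x = 0) :
    HasSum (fun jk : ℤ × ℤ => ‖∫ ξ, conj (ee2 (2 ^ jk.1) jk.2 ξ) * g ξ‖ ^ 2) (∫ x, ‖g x‖ ^ 2) := by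
  have h1 := hasSum_BB hgc hgs h0
  have h2 : ∀ j : ℤ, HasSum (fun k : ℤ => ‖∫ ξ, conj (ee2 (2 ^ j) k ξ) * g ξ‖ ^ 2) (BB g (2 ^ j)) :=
    fun j => hasSum_coeff hgc hgs (by positivity)
  have hsum : Summable fun jk : ℤ × ℤ => ‖∫ ξ, conj (ee2 (2 ^ jk.1) jk.2 ξ) * g ξ‖ ^ 2 := by
    rw [summable_prod_of_nonneg (fun _ => by positivity)]
    refine ⟨fun j => (h2 j).summable, ?_⟩
    have hfun : (fun j : ℤ => ∑' k : ℤ, ‖∫ ξ, conj (ee2 (2 ^ j) k ξ) * g ξ‖ ^ 2)
        = fun j => BB g (2 ^ j) := by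
      funext j
      exact (h2 j).tsum_eq
    exact hfun ▸ h1.summable
  have h3 := hsum.hasSum.prod_fiberwise h2
  rw [← h3.unique h1]
  exact hsum.hasSum

end

end Pool.Agent.MP27eeb4
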