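import Mathlib

/-!
Two abstract facts on Parseval systems in a Hilbert space, and a density statement in `L²(ℝ)`.
-/

open Real Set Filter Topology MeasureTheory ComplexConjugate

namespace Pool.Agent.MP27eeb4

noncomputable section

open scoped InnerProductSpace

theorem parseval_extend {H ι : Type*} [NormedAddCommGroup H] [InnerProductSpace ℂ H]
    (e : ι → H) (D : Submodule ℂ H) (hD : D.topologicalClosure = ⊤)
    (h : ∀ g ∈ D, HasSum (fun i => ‖⟪e i, g⟫_ℂ‖ ^ 2) (‖g‖ ^ 2)) (g : H) :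
    HasSum (fun i => ‖⟪e i, g⟫_ℂ‖ ^ 2) (‖g‖ ^ 2) := by
  have hcl : closure (D : Set H) = univ := by
    rw [← Submodule.topologicalClosure_coe, hD]; rfl
  have bessel : ∀ (S : Finset ι) (g : H), ∑ i ∈ S, ‖⟪e i, g⟫_ℂ‖ ^ 2 ≤ ‖g‖ ^ 2 := by
    intro S g
    have hclosed : IsClosed {g : H | ∑ i ∈ S, ‖⟪e i, g⟫_ℂ‖ ^ 2 ≤ ‖g‖ ^ 2} :=
      isClosed_le (by fun_prop) (by fun_prop)
    have hsub : (D : Set H) ⊆ {g : H | ∑ i ∈ S, ‖⟪e i, g⟫_ℂ‖ ^ 2 ≤ ‖g‖ ^ 2} :=
      fun g hg => sum_le_hasSum S (fun _ _ => by positivity) (h g hg)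
    have h2 := hclosed.closure_subset_iff.2 hsub
    rw [hcl] at h2
    exact h2 (mem_univ g)
  have summ : ∀ g, Summable (fun i => ‖⟪e i, g⟫_ℂ‖ ^ 2) :=
    fun g => summable_of_sum_le (fun _ => by positivity) (fun S => bessel S g)
  have mem : ∀ g, Memℓp (fun i => ⟪e i, g⟫_ℂ) 2 := fun g => memℓp_gen (by simpa using summ g)
  let T : H →ₗ[ℂ] lp (fun _ : ι => ℂ) 2 :=
    { toFun := fun g => ⟨_, mem g⟩
      map_add' := fun x y => by
        ext i
        exact inner_add_right _ _ _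
      map_smul' := fun c x => by
        ext i
        exact inner_smul_right _ _ _ }
  have hT : ∀ g, HasSum (fun i => ‖⟪e i, g⟫_ℂ‖ ^ 2) (‖T g‖ ^ 2) := by
    intro g
    have h0 := lp.hasSum_norm (p := 2) (by norm_num) (T g)
    have h1 : HasSum (fun i => ‖(T g : ι → ℂ) i‖ ^ 2) (‖T g‖ ^ 2) := by simpa using h0
    exact h1
  have hle : ∀ g, ‖T g‖ ≤ 1 * ‖g‖ := by
    intro g
    have h1 : ‖T g‖ ^ 2 ≤ ‖g‖ ^ 2 := hasSum_le_of_sum_le (hT g) (fun S => bessel S g)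
    rw [one_mul]
    exact le_of_sq_le_sq h1 (norm_nonneg _)
  have hcont : Continuous T := (T.mkContinuous 1 hle).continuous
  have hclosed : IsClosed {g : H | ‖T g‖ ^ 2 = ‖g‖ ^ 2} :=
    isClosed_eq (by fun_prop) (by fun_prop)
  have hsub : (D : Set H) ⊆ {g : H | ‖T g‖ ^ 2 = ‖g‖ ^ 2} :=
    fun g hg => (hT g).unique (h g hg)
  have h2 := hclosed.closure_subset_iff.2 hsub
  rw [hcl] at h2
  have h3 : ‖T g‖ ^ 2 = ‖g‖ ^ 2 := h2 (mem_univ g)
  rw [← h3]
  exact hT g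

theorem orthonormal_of_parseval {H ι : Type*} [NormedAddCommGroup H] [InnerProductSpace ℂ H]
    (e : ι → H) (h1 : ∀ i, ‖e i‖ = 1)
    (h : ∀ g, HasSum (fun i => ‖⟪e i, g⟫_ℂ‖ ^ 2) (‖g‖ ^ 2)) : Orthonormal ℂ e := by
  classical
  refine ⟨h1, fun i j hij => ?_⟩
  have h2 := h (e j)
  rw [h1 j, one_pow] at h2
  have h3 := sum_le_hasSum {i, j} (fun _ _ => by positivity) h2
  rw [Finset.sum_pair hij, inner_self_eq_norm_sq_to_K, h1 j] at h3
  norm_num at h3
  exact h3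

theorem span_dense_of_parseval {H ι : Type*} [NormedAddCommGroup H] [InnerProductSpace ℂ H]
    [CompleteSpace H] (e : ι → H)
    (h : ∀ g, HasSum (fun i => ‖⟪e i, g⟫_ℂ‖ ^ 2) (‖g‖ ^ 2)) :
    ⊤ ≤ (Submodule.span ℂ (Set.range e)).topologicalClosure := by
  rw [top_le_iff, Submodule.topologicalClosure_eq_top_iff, Submodule.eq_bot_iff]
  intro g hg
  have h0 : ∀ i, ⟪e i, g⟫_ℂ = 0 := fun i =>
    (Submodule.mem_orthogonal _ _).1 hg _ (Submodule.subset_span (mem_range_self i))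
  have h2 := h g
  simp only [h0] at h2
  have h5 : HasSum (fun _ : ι => ‖(0:ℂ)‖ ^ 2) 0 := by
    have : (fun _ : ι => ‖(0:ℂ)‖ ^ 2) = fun _ => 0 := by funext i; simp
    rw [this]
    exact hasSum_zero
  have h3 := h2.unique h5
  have h4 : ‖g‖ = 0 := by simpa using h3
  exact norm_eq_zero.1 h4

/-- the space of `L²` classes of continuous compactly supported functions vanishing near `0` -/
def DD : Submodule ℂ (Lp ℂ 2 (volume : Measure ℝ)) where
  carrier := {f | ∃ g : ℝ → ℂ, Continuous g ∧ HasCompactSupport g ∧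
    (∃ r : ℝ, 0 < r ∧ ∀ x, |x| < r → g x = 0) ∧ f =ᵐ[volume] g}
  add_mem' := by
    rintro f1 f2 ⟨g1, c1, s1, ⟨r1, p1, z1⟩, e1⟩ ⟨g2, c2, s2, ⟨r2, p2, z2⟩, e2⟩
    refine ⟨g1 + g2, c1.add c2, s1.add s2, ⟨min r1 r2, lt_min p1 p2, fun x hx => ?_⟩, ?_⟩
    · rw [Pi.add_apply, z1 x (hx.trans_le (min_le_left _ _)), z2 x (hx.trans_le (min_le_right _ _)),
        add_zero]
    · exact (Lp.coeFn_add f1 f2).trans (e1.add e2)
  zero_mem' := ⟨0, continuous_zero, HasCompactSupport.zero, ⟨1, one_pos, fun _ _ => rfl⟩,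
    Lp.coeFn_zero _ _ _⟩
  smul_mem' := by
    rintro c f ⟨g, c1, s1, ⟨r1, p1, z1⟩, e1⟩
    refine ⟨c • g, c1.const_smul c, s1.smul_left (f := fun _ => c), ⟨r1, p1, fun x hx => ?_⟩, ?_⟩
    · rw [Pi.smul_apply, z1 x hx, smul_zero]
    · exact (Lp.coeFn_smul c f).trans (e1.const_smul c)

theorem DD_dense : DD.topologicalClosure = ⊤ := by
  rw [Submodule.topologicalClosure_eq_top_iff, Submodule.eq_bot_iff]
  intro h hh
  have hloc : LocallyIntegrable (h : ℝ → ℂ) volume :=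
    (Lp.memLp h).locallyIntegrable (by norm_num)
  have key : ∀ᵐ x ∂(volume : Measure ℝ), x ∈ ({0}ᶜ : Set ℝ) → (h : ℝ → ℂ) x = 0 := by
    refine IsOpen.ae_eq_zero_of_integral_contDiff_smul_eq_zero isOpen_compl_singleton
      (hloc.locallyIntegrableOn _) ?_
    intro g hg hgs hgt
    have hgc : Continuous fun x => (g x : ℂ) := Complex.continuous_ofReal.comp hg.continuous
    have hgs' : HasCompactSupport fun x => (g x : ℂ) :=
      hgs.comp_left (g := fun y : ℝ => (y : ℂ)) Complex.ofReal_zero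
    have hmem : MemLp (fun x => (g x : ℂ)) 2 (volume : Measure ℝ) :=
      hgc.memLp_of_hasCompactSupport hgs'
    have hD : hmem.toLp _ ∈ DD := by
      refine ⟨fun x => (g x : ℂ), hgc, hgs', ?_, hmem.coeFn_toLp⟩
      have h0 : (0:ℝ) ∉ tsupport g := fun h => hgt h rfl
      have h1 : (tsupport g)ᶜ ∈ 𝓝 (0:ℝ) := (isClosed_tsupport g).isOpen_compl.mem_nhds h0
      obtain ⟨r, hr, hr'⟩ := Metric.mem_nhds_iff.1 h1
      refine ⟨r, hr, fun x hx => ?_⟩
      have h2 : x ∈ (tsupport g)ᶜ := hr' (by simpa [Metric.mem_ball, Real.dist_eq] using hx)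
      have h3 := image_eq_zero_of_notMem_tsupport h2
      simp only [h3, Complex.ofReal_zero]
    have h3 : ⟪hmem.toLp _, h⟫_ℂ = 0 := (Submodule.mem_orthogonal _ _).1 hh _ hD
    rw [L2.inner_def] at h3
    rw [← h3]
    refine integral_congr_ae ?_
    filter_upwards [hmem.coeFn_toLp] with x hx
    rw [hx, RCLike.inner_apply, Complex.conj_ofReal, Complex.real_smul, mul_comm]
  have h0 : (h : ℝ → ℂ) =ᵐ[volume] 0 := by
    have h1 : ∀ᵐ x ∂(volume : Measure ℝ), x ≠ 0 := by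
      simp [ae_iff]
    filter_upwards [key, h1] with x hx hx'
    exact hx hx'
  exact (Lp.eq_zero_iff_ae_eq_zero).2 h0

end

end Pool.Agent.MP27eeb4
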