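import Mathlib
import Pool.Agent.MP_27eeb4_an.Norm

/-!
The wavelet as a Schwartz function, and its dilates and translates.
-/

open Real Set Filter Topology MeasureTheory FourierTransform ComplexConjugate
open scoped SchwartzMap ContDiff

namespace Pool.Agent.MP27eeb4

noncomputable section

/-- `Phi` as a Schwartz function -/
def PhiS : 𝓢(ℝ, ℝ) where
  toFun := Phi
  smooth' := contDiff_Phi (k := ⊤)
  decay' := by
    intro k n
    obtain ⟨B, hB⟩ := Phi_schwartz k n
    refine ⟨B, fun x => ?_⟩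
    rw [norm_iteratedFDeriv_eq_norm_iteratedDeriv]
    exact hB x

lemma PhiS_apply (x : ℝ) : PhiS x = Phi x := rfl

/-- scaling as a continuous linear equivalence -/
def scaleE (s : ℝ) (hs : s ≠ 0) : ℝ ≃L[ℝ] ℝ := ContinuousLinearEquiv.smulLeft (Units.mk0 s hs)

lemma scaleE_apply (s : ℝ) (hs : s ≠ 0) (x : ℝ) : scaleE s hs x = s * x := rfl

lemma temperate_m : Function.HasTemperateGrowth m := by
  refine ⟨contDiff_m (n := ⊤), fun n => ?_⟩
  obtain ⟨M, hM⟩ := m_deriv_bound n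
  refine ⟨0, M, fun x => ?_⟩
  rw [norm_iteratedFDeriv_eq_norm_iteratedDeriv, pow_zero, mul_one]
  exact hM x

lemma iteratedDeriv_cexp (c : ℂ) (n : ℕ) :
    iteratedDeriv n (fun x : ℝ => Complex.exp (c * x)) = fun x : ℝ => c ^ n * Complex.exp (c * x) := by
  induction n with
  | zero => simp
  | succ n ih =>
    rw [iteratedDeriv_succ, ih]
    funext x
    have h1 : HasDerivAt (fun x : ℝ => Complex.exp (c * x)) (Complex.exp (c * x) * (c * 1)) x := by
      have := (((hasDerivAt_id' (x:ℂ)).const_mul c).cexp).comp_ofReal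
      exact this
    rw [(h1.const_mul (c ^ n)).deriv]
    ring

lemma temperate_cexp (t : ℝ) :
    Function.HasTemperateGrowth fun x : ℝ => Complex.exp ((t * Complex.I) * x) := by
  have hc : ContDiff ℝ ∞ fun x : ℝ => (x : ℂ) := Complex.ofRealCLM.contDiff
  refine ⟨(contDiff_const.mul hc).cexp, fun n => ?_⟩
  refine ⟨0, |t| ^ n, fun x => ?_⟩
  rw [norm_iteratedFDeriv_eq_norm_iteratedDeriv, iteratedDeriv_cexp, pow_zero, mul_one, norm_mul,
    norm_pow, norm_mul, Complex.norm_I, Complex.norm_real, mul_one]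
  have : ‖Complex.exp ((t * Complex.I) * x)‖ = 1 := by
    have := Complex.norm_exp_ofReal_mul_I (t * x)
    rw [← this]
    congr 2
    push_cast
    ring
  rw [this, mul_one, norm_eq_abs]

lemma temperate_mult : Function.HasTemperateGrowth fun x : ℝ =>
    Complex.exp (((-π : ℝ) * Complex.I) * x) * ((m (1/2 * x + 1/2) : ℝ) : ℂ) := by
  have h1 : Function.HasTemperateGrowth fun x : ℝ => (1/2 : ℝ) * x + 1/2 := by fun_prop
  have h2 : Function.HasTemperateGrowth (m ∘ fun x : ℝ => (1/2 : ℝ) * x + 1/2) :=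
    temperate_m.comp h1
  have h3 : Function.HasTemperateGrowth ((Complex.ofRealCLM : ℝ → ℂ) ∘ (m ∘ fun x : ℝ => (1/2 : ℝ) * x + 1/2)) :=
    (Complex.ofRealCLM.hasTemperateGrowth).comp h2
  exact (temperate_cexp (-π)).mul h3

/-- the Fourier transform of the wavelet as a Schwartz function -/
def psiHatS : 𝓢(ℝ, ℂ) :=
  SchwartzMap.smulLeftCLM ℂ (fun x : ℝ =>
    Complex.exp (((-π : ℝ) * Complex.I) * x) * ((m (1/2 * x + 1/2) : ℝ) : ℂ))
    (SchwartzMap.postcompCLM Complex.ofRealCLM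
      (SchwartzMap.compCLMOfContinuousLinearEquiv ℝ (scaleE (1/2) (by norm_num)) PhiS))

lemma psiHatS_apply (x : ℝ) : psiHatS x = psiHat x := by
  unfold psiHatS psiHat
  rw [SchwartzMap.smulLeftCLM_apply_apply temperate_mult]
  have e1 : (scaleE (1/2) (by norm_num)) x = x / 2 := by rw [scaleE_apply]; ring
  have e2 : (SchwartzMap.postcompCLM Complex.ofRealCLM
      (SchwartzMap.compCLMOfContinuousLinearEquiv ℝ (scaleE (1/2) (by norm_num)) PhiS)) x
      = ((Phi (x / 2) : ℝ) : ℂ) := by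
    rw [SchwartzMap.postcompCLM_apply, SchwartzMap.compCLMOfContinuousLinearEquiv_apply,
      Function.comp_apply, e1]
    rfl
  have e3 : (1:ℝ)/2 * x + 1/2 = x/2 + 1/2 := by ring
  have e4 : (((-π : ℝ) : ℂ) * Complex.I) * x = -(π * x) * Complex.I := by push_cast; ring
  rw [e2, smul_eq_mul, Complex.ofReal_mul, mul_assoc, e3, e4]

lemma coe_psiHatS : (psiHatS : ℝ → ℂ) = psiHat := funext psiHatS_apply

/-- the wavelet -/
def psiS : 𝓢(ℝ, ℂ) := 𝓕⁻ psiHatS

lemma fourier_psiS : 𝓕 (psiS : ℝ → ℂ) = psiHat := by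
  rw [← coe_psiHatS, ← SchwartzMap.fourier_coe, psiS, FourierInvPair.fourier_fourierInv_eq]

/-- `√s ψ(s x - k)` as a Schwartz function -/
def psiJK (s : ℝ) (hs : 0 < s) (k : ℝ) : 𝓢(ℝ, ℂ) :=
  ((√s : ℝ) : ℂ) • SchwartzMap.compCLMOfContinuousLinearEquiv ℂ (scaleE s hs.ne')
    (SchwartzMap.compSubConstCLM ℂ k psiS)

lemma psiJK_apply (s : ℝ) (hs : 0 < s) (k : ℝ) (x : ℝ) :
    psiJK s hs k x = ((√s : ℝ) : ℂ) * psiS (s * x - k) := rfl

lemma fourier_psiJK (s : ℝ) (hs : 0 < s) (k : ℝ) (ξ : ℝ) :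
    𝓕 (psiJK s hs k) ξ = ((√s)⁻¹ : ℝ) * Complex.exp ((-(2 * π * k * (ξ / s)) : ℝ) * Complex.I)
      * psiHat (ξ / s) := by
  rw [SchwartzMap.fourier_coe, ← fourier_psiS, Real.fourier_real_eq_integral_exp_smul,
    Real.fourier_real_eq_integral_exp_smul]
  set h : ℝ → ℂ := fun y => Complex.exp ((-2 * π * ((y + k) / s) * ξ : ℝ) * Complex.I)
    • (((√s : ℝ) : ℂ) * psiS y) with hh
  have h1 : ∀ x, Complex.exp ((-2 * π * x * ξ : ℝ) * Complex.I) • (psiJK s hs k x)
      = h (s * x - k) := by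
    intro x
    rw [hh, psiJK_apply]
    have e1 : (s * x - k + k) / s = x := by field_simp; ring
    simp only [e1]
  simp only [h1]
  have h2 : ∫ x, h (s * x - k) = s⁻¹ • ∫ y, h y := by
    have e3 := Measure.integral_comp_mul_left (fun y => h (y - k)) s
    rw [e3, integral_sub_right_eq_self (fun y => h y) k, abs_of_pos (by positivity : 0 < s⁻¹)]
  rw [h2, ← integral_smul, ← integral_const_mul]
  congr 1
  funext y
  rw [hh]
  simp only [smul_eq_mul, Complex.real_smul]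
  have e3 : ((s⁻¹ : ℝ) : ℂ) * ((√s : ℝ) : ℂ) = ((√s)⁻¹ : ℝ) := by
    rw [← Complex.ofReal_mul]
    congr 1
    have := Real.mul_self_sqrt hs.le
    have h0 : √s ≠ 0 := (Real.sqrt_pos.2 hs).ne'
    field_simp
    rw [sq]; exact this
  have e4 : Complex.exp ((-2 * π * ((y + k) / s) * ξ : ℝ) * Complex.I)
      = Complex.exp ((-(2 * π * k * (ξ / s)) : ℝ) * Complex.I)
        * Complex.exp ((-2 * π * y * (ξ / s) : ℝ) * Complex.I) := by
    rw [← Complex.exp_add]
    congr 1
    push_cast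
    field_simp
    ring
  rw [e4, ← e3]
  ring

end

end Pool.Agent.MP27eeb4
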