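import Mathlib
import Pool.Agent.MP_27eeb4_an.Frame2
import Pool.Agent.MP_27eeb4_an.Hilbert
import Pool.Agent.MP_27eeb4_an.Schwartz

/-!
The wavelet system is an orthonormal basis of `L²(ℝ)`.
-/

open Real Set Filter Topology MeasureTheory FourierTransform ComplexConjugate
open scoped SchwartzMap ContDiff InnerProductSpace

namespace Pool.Agent.MP27eeb4

noncomputable section

lemma two_zpow_pos (j : ℤ) : (0:ℝ) < 2 ^ j := by positivity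

/-- the wavelet system in `L²` -/
def vv (jk : ℤ × ℤ) : Lp ℂ 2 (volume : Measure ℝ) :=
  (psiJK (2 ^ jk.1) (two_zpow_pos jk.1) (jk.2 : ℝ)).toLp 2

lemma fourier_vv (jk : ℤ × ℤ) :
    (𝓕 (vv jk) : Lp ℂ 2 (volume : Measure ℝ)) =ᵐ[volume] ee2 (2 ^ jk.1) jk.2 := by
  unfold vv
  rw [SchwartzMap.toLp_fourier_eq]
  refine (SchwartzMap.coeFn_toLp _ 2 volume).trans ?_
  refine Eventually.of_forall fun ξ => ?_
  rw [fourier_psiJK]
  rfl

lemma norm_ee2_sq {s : ℝ} (hs : 0 < s) (k : ℤ) (ξ : ℝ) :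
    ‖ee2 s k ξ‖ ^ 2 = s⁻¹ * ‖psiHat (s⁻¹ * ξ)‖ ^ 2 := by
  unfold ee2
  rw [norm_mul, norm_mul, Complex.norm_real, Complex.norm_exp_ofReal_mul_I, mul_one, mul_pow,
    norm_eq_abs, sq_abs, inv_pow, Real.sq_sqrt hs.le, div_eq_inv_mul]

lemma norm_vv (jk : ℤ × ℤ) : ‖vv jk‖ = 1 := by
  have h1 : ‖vv jk‖ ^ 2 = 1 := by
    rw [← Lp.norm_fourier_eq, ← inner_self_eq_norm_sq (𝕜 := ℂ), L2.inner_def]
    have hs := two_zpow_pos jk.1
    have h2 : ∫ x, ⟪(𝓕 (vv jk) : Lp ℂ 2 (volume : Measure ℝ)) x,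
        (𝓕 (vv jk) : Lp ℂ 2 (volume : Measure ℝ)) x⟫_ℂ
        = ∫ x, ((‖ee2 (2 ^ jk.1) jk.2 x‖ ^ 2 : ℝ) : ℂ) := by
      refine integral_congr_ae ?_
      filter_upwards [fourier_vv jk] with x hx
      rw [hx, inner_self_eq_norm_sq_to_K]
      norm_cast
    rw [h2, integral_complex_ofReal]
    simp only [norm_ee2_sq hs]
    rw [integral_const_mul, Measure.integral_comp_mul_left (fun x => ‖psiHat x‖ ^ 2) (2 ^ jk.1)⁻¹,
      integral_psiHat_sq, inv_inv, abs_of_pos hs, smul_eq_mul, mul_one, inv_mul_cancel₀ hs.ne']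
    simp
  have h2 := norm_nonneg (vv jk)
  nlinarith

lemma parseval_fourier (g : Lp ℂ 2 (volume : Measure ℝ)) :
    HasSum (fun jk : ℤ × ℤ => ‖⟪(𝓕 (vv jk) : Lp ℂ 2 (volume : Measure ℝ)), g⟫_ℂ‖ ^ 2)
      (‖g‖ ^ 2) := by
  refine parseval_extend _ DD DD_dense ?_ g
  rintro g ⟨g0, hc, hs, h0, he⟩
  have h1 := hasSum_all hc hs h0
  have e1 : ‖g‖ ^ 2 = ∫ x, ‖g0 x‖ ^ 2 := by
    rw [← inner_self_eq_norm_sq (𝕜 := ℂ), L2.inner_def]
    have h2 : ∫ x, ⟪g x, g x⟫_ℂ = ∫ x, ((‖g0 x‖ ^ 2 : ℝ) : ℂ) := by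
      refine integral_congr_ae ?_
      filter_upwards [he] with x hx
      rw [hx, inner_self_eq_norm_sq_to_K]
      norm_cast
    rw [h2, integral_complex_ofReal]
    simp
  have e2 : (fun jk : ℤ × ℤ => ‖⟪(𝓕 (vv jk) : Lp ℂ 2 (volume : Measure ℝ)), g⟫_ℂ‖ ^ 2)
      = fun jk : ℤ × ℤ => ‖∫ ξ, conj (ee2 (2 ^ jk.1) jk.2 ξ) * g0 ξ‖ ^ 2 := by
    funext jk
    congr 2
    rw [L2.inner_def]
    refine integral_congr_ae ?_
    filter_upwards [he, fourier_vv jk] with x hx hx'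
    rw [hx, hx', RCLike.inner_apply, mul_comm]
  rw [e1, e2]
  exact h1

lemma parseval_vv (f : Lp ℂ 2 (volume : Measure ℝ)) :
    HasSum (fun jk : ℤ × ℤ => ‖⟪vv jk, f⟫_ℂ‖ ^ 2) (‖f‖ ^ 2) := by
  have h1 := parseval_fourier (𝓕 f)
  simp only [Lp.inner_fourier_eq, Lp.norm_fourier_eq] at h1
  exact h1

/-- the wavelet basis -/
def wbasis : HilbertBasis (ℤ × ℤ) ℂ (Lp ℂ 2 (volume : Measure ℝ)) :=
  HilbertBasis.mk (orthonormal_of_parseval vv norm_vv parseval_vv)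
    (span_dense_of_parseval vv parseval_vv)

lemma wbasis_apply (jk : ℤ × ℤ) : wbasis jk = vv jk := by
  unfold wbasis
  rw [HilbertBasis.coe_mk]

lemma wbasis_coe (jk : ℤ × ℤ) :
    wbasis jk =ᵐ[volume] fun x => ((√((2:ℝ) ^ jk.1) : ℝ) : ℂ) * psiS ((2:ℝ) ^ jk.1 * x - jk.2) := by
  rw [wbasis_apply]
  exact SchwartzMap.coeFn_toLp _ 2 volume

end

end Pool.Agent.MP27eeb4
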