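import Mathlib
import Pool.Agent.MP_27eeb4_an.Basis

/-!
The wavelet is real valued and its Fourier transform is not compactly supported.
-/

open Real Set Filter Topology MeasureTheory FourierTransform ComplexConjugate
open scoped SchwartzMap ContDiff InnerProductSpace

namespace Pool.Agent.MP27eeb4

noncomputable section

lemma psiHat_neg (ξ : ℝ) : psiHat (-ξ) = conj (psiHat ξ) := by
  unfold psiHat
  rw [map_mul, Complex.conj_ofReal, ← Complex.exp_conj]
  have e1 : m (-ξ / 2 + 1/2) = m (ξ / 2 + 1/2) := by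
    rw [show -ξ / 2 + 1/2 = -(ξ / 2 + 1/2) + 1 by ring]
    have := m_add_int (-(ξ / 2 + 1/2)) 1
    rw [Int.cast_one] at this
    rw [this, m_neg]
  rw [e1, neg_div, Phi_neg]
  congr 2
  simp

lemma psiS_real (x : ℝ) : (psiS x).im = 0 := by
  rw [← Complex.conj_eq_iff_im]
  have h1 : psiS x = ∫ ξ, Complex.exp ((2 * π * ξ * x : ℝ) * Complex.I) • psiHat ξ := by
    rw [psiS, SchwartzMap.fourierInv_coe, coe_psiHatS, Real.fourierInv_eq']
    refine integral_congr_ae (Eventually.of_forall fun ξ => ?_)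
    simp only [RCLike.inner_apply, conj_trivial, smul_eq_mul]
    congr 3
    push_cast
    ring
  rw [h1, ← integral_conj, ← integral_neg_eq_self]
  congr 1
  funext ξ
  simp only [smul_eq_mul, map_mul]
  rw [← Complex.exp_conj, psiHat_neg, Complex.conj_conj, map_mul, Complex.conj_I,
    Complex.conj_ofReal]
  congr 2
  push_cast
  ring

lemma ee_seq {n : ℕ} {ξ0 : ℝ} (h0 : 0 < |ee ξ0|) (h1 : |ee ξ0| ≤ (1/4)^n / 8) :
    ∀ k ≤ n, 0 < |ee (2 ^ k * ξ0)| ∧ |ee (2 ^ k * ξ0)| ≤ 4 ^ k * |ee ξ0| := by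
  intro k hk
  induction k with
  | zero => simp [h0]
  | succ k ih =>
    obtain ⟨ih1, ih2⟩ := ih (by omega)
    have h2 : |ee (2 ^ k * ξ0)| ≤ 1/8 := by
      refine ih2.trans ?_
      have h3 : (4:ℝ) ^ k * |ee ξ0| ≤ 4 ^ n * ((1/4)^n / 8) :=
        mul_le_mul (pow_le_pow_right₀ (by norm_num) (by omega)) h1 (abs_nonneg _) (by positivity)
      have h4 : (4:ℝ) ^ n * ((1/4)^n / 8) = 1/8 := by
        rw [← mul_div_assoc, ← mul_pow]; norm_num
      linarith
    rw [abs_le] at h2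
    have e1 : ee (2 ^ (k+1) * ξ0) = -2 * ee (2 ^ k * ξ0) * (1 - ee (2 ^ k * ξ0)) := by
      rw [← ee_two_mul]; congr 1; ring
    have e2 : |ee (2 ^ (k+1) * ξ0)| = 2 * |ee (2 ^ k * ξ0)| * (1 - ee (2 ^ k * ξ0)) := by
      rw [e1, abs_mul, abs_mul, abs_neg, abs_two, abs_of_pos (a := 1 - ee (2 ^ k * ξ0))]
      linarith [h2.2]
    constructor
    · rw [e2]
      have : 0 < 1 - ee (2 ^ k * ξ0) := by linarith [h2.2]
      positivity
    · rw [e2, pow_succ]
      have : 1 - ee (2 ^ k * ξ0) ≤ 2 := by linarith [h2.1]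
      nlinarith

lemma psiHat_ne_zero (n : ℕ) : ∃ ξ : ℝ, 2 ^ n / 4 ≤ ξ ∧ psiHat (2 * ξ) ≠ 0 := by
  set ε : ℝ := (1/4)^n / 8 with hε
  have hε0 : 0 < ε := by positivity
  have hε1 : ε ≤ 1/8 := by
    have : ((1:ℝ)/4)^n ≤ 1 := pow_le_one₀ (by norm_num) (by norm_num)
    linarith
  set θ := arccos (-1/2 + ε) with hθ
  have hcos : cos θ = -1/2 + ε := cos_arccos (by linarith) (by linarith)
  set ξ0 := θ / (2 * π) with hξ0
  have hpi := pi_pos
  have hee : ee ξ0 = ε := by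
    unfold ee
    rw [hξ0, mul_div_cancel₀ _ (by positivity), hcos]
    ring
  have hlow : 1/4 ≤ ξ0 := by
    have : π / 2 ≤ θ := by
      rw [← arccos_zero]
      exact arccos_le_arccos (by linarith)
    rw [hξ0, le_div_iff₀ (by positivity)]
    linarith
  have hup : ξ0 ≤ 1/2 := by
    have : θ ≤ π := arccos_le_pi _
    rw [hξ0, div_le_iff₀ (by positivity)]
    linarith
  have habs : |ee ξ0| = ε := by rw [hee, abs_of_pos hε0]
  have hseq := ee_seq (n := n) (ξ0 := ξ0) (by rw [habs]; exact hε0) habs.le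
  have hsmall : ∀ k ≤ n, ee (2 ^ k * ξ0) ≠ 0 ∧ -1/8 ≤ ee (2 ^ k * ξ0) ∧ ee (2 ^ k * ξ0) ≤ 1/8 := by
    intro k hk
    obtain ⟨h1, h2⟩ := hseq k hk
    have h3 : (4:ℝ) ^ k * |ee ξ0| ≤ 4 ^ n * ((1/4)^n / 8) :=
      mul_le_mul (pow_le_pow_right₀ (by norm_num) hk) habs.le (abs_nonneg _) (by positivity)
    have h4 : (4:ℝ) ^ n * ((1/4)^n / 8) = 1/8 := by
      rw [← mul_div_assoc, ← mul_pow]; norm_num
    have h5 : |ee (2 ^ k * ξ0)| ≤ 1/8 := by linarith
    rw [abs_le] at h5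
    exact ⟨abs_pos.1 h1, by linarith [h5.1], h5.2⟩
  refine ⟨2 ^ n * ξ0, ?_, ?_⟩
  · have : (0:ℝ) < 2 ^ n := by positivity
    nlinarith
  · have hm : 0 < m (2 ^ n * ξ0 + 1/2) := by
      obtain ⟨h1, h2, h3⟩ := hsmall n le_rfl
      have hc : cos (2 * π * (2 ^ n * ξ0 + 1/2)) = 1/2 - ee (2 ^ n * ξ0) := by
        unfold ee
        rw [show 2 * π * (2 ^ n * ξ0 + 1/2) = 2 * π * (2 ^ n * ξ0) + π by ring, cos_add_pi]
        ring
      apply m_pos_of_cos
      · rw [hc]; linarith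
      · rw [hc]; intro h; linarith
    have hP : 0 < P n (2 ^ n * ξ0) := by
      unfold P
      refine Finset.prod_pos fun j hj => ?_
      rw [Finset.mem_range] at hj
      have e1 : 2 ^ n * ξ0 / 2 ^ (j + 1) = 2 ^ (n - (j + 1)) * ξ0 := by
        rw [div_eq_iff (by positivity)]
        rw [show (2:ℝ) ^ n = 2 ^ (n - (j+1)) * 2 ^ (j+1) by rw [← pow_add]; congr 1; omega]
        ring
      rw [e1]
      obtain ⟨h1, h2, h3⟩ := hsmall (n - (j + 1)) (by omega)
      have hc : cos (2 * π * (2 ^ (n - (j+1)) * ξ0)) = ee (2 ^ (n - (j+1)) * ξ0) - 1/2 := by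
        unfold ee; ring
      apply m_pos_of_cos
      · rw [hc]; linarith
      · rw [hc]; intro h; apply h1; linarith
    have hPhi : 0 < Phi (2 ^ n * ξ0) := by
      rw [Phi_split n]
      have e2 : 2 ^ n * ξ0 / 2 ^ n = ξ0 := by field_simp
      rw [e2]
      exact mul_pos hP (Phi_pos (by rw [abs_of_nonneg (by linarith)]; exact hup))
    unfold psiHat
    have e3 : 2 * (2 ^ n * ξ0) / 2 = 2 ^ n * ξ0 := by ring
    rw [e3]
    refine mul_ne_zero (Complex.exp_ne_zero _) ?_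
    rw [Ne, Complex.ofReal_eq_zero]
    positivity

lemma not_compact : ¬ HasCompactSupport psiHat := by
  intro h
  obtain ⟨R, hR⟩ := h.isCompact.isBounded.exists_norm_le
  obtain ⟨n, hn⟩ := pow_unbounded_of_one_lt (2 * |R|) (show (1:ℝ) < 2 by norm_num)
  obtain ⟨ξ, h1, h2⟩ := psiHat_ne_zero n
  have h3 := hR (2 * ξ) (subset_tsupport _ h2)
  rw [norm_eq_abs] at h3
  have h4 := le_abs_self (2 * ξ)
  have h5 := le_abs_self R
  linarith

end

end Pool.Agent.MP27eeb4
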